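import Mathlib

/-! Facts about contracted difference matrices over `ZMod 4 × ZMod 4 × ZMod 2 × ZMod 2`. -/

namespace Pool.Agent.K7.H78.CDM

open Finset

abbrev Z2 := ZMod 2
abbrev Z4 := ZMod 4
abbrev G := ZMod 4 × ZMod 4 × ZMod 2 × ZMod 2
abbrev U := ZMod 2 × ZMod 2

/-- integer lift of a bit -/
def li (x : Z2) : ℤ := if x = 0 then 0 else 1
/-- lift to `Z4` -/
def l4 (x : Z2) : Z4 := if x = 0 then 0 else 1
/-- parity of an element of `Z4` -/
def p2 (x : Z4) : Z2 := ZMod.castHom (show 2 ∣ 4 by norm_num) (ZMod 2) x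
/-- half -/
def hf (x : Z4) : Z2 := if x = 0 ∨ x = 1 then 0 else 1

lemma li_cast (x : Z2) : ((li x : ℤ) : Z4) = l4 x := by
  unfold li l4; split_ifs <;> simp

lemma p2_add (x y : Z4) : p2 (x + y) = p2 x + p2 y := by unfold p2; simp
lemma p2_l4 : ∀ x : Z2, p2 (l4 x) = x := by decide
lemma p2_mul (x y : Z4) : p2 (x * y) = p2 x * p2 y := by unfold p2; simp
lemma p2_sum {ι : Type*} (s : Finset ι) (f : ι → Z4) : p2 (∑ i ∈ s, f i) = ∑ i ∈ s, p2 (f i) := by
  unfold p2; simp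

/-- signed matrix value -/
def T {R C : ℕ} (M : Fin R → Fin C → G) (α : Fin R → ℤ) (κ : Fin C → ℤ) : G :=
  ∑ i, ∑ j, (α i * κ j) • M i j

/-- entries in `{-1,0,1}` -/
def Sg {n : ℕ} (α : Fin n → ℤ) : Prop := ∀ i, α i = -1 ∨ α i = 0 ∨ α i = 1

/-- all signed values are nonzero -/
def HS {R C : ℕ} (M : Fin R → Fin C → G) : Prop :=
  ∀ α κ, Sg α → Sg κ → α ≠ 0 → κ ≠ 0 → T M α κ ≠ 0

/-- the four parity planes -/
def pl {R C : ℕ} (M : Fin R → Fin C → G) : Fin 4 → Fin R → Fin C → Z2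
  | 0, i, j => p2 (M i j).1
  | 1, i, j => p2 (M i j).2.1
  | 2, i, j => (M i j).2.2.1
  | 3, i, j => (M i j).2.2.2

/-- bilinear extension -/
def be {R C : ℕ} (B : Fin R → Fin C → Z2) (a : Fin R → Z2) (k : Fin C → Z2) : Z2 :=
  ∑ i, ∑ j, a i * k j * B i j

lemma be_add_left {R C : ℕ} (B : Fin R → Fin C → Z2) (a a' k) :
    be B (a + a') k = be B a k + be B a' k := by
  simp only [be, ← sum_add_distrib]
  refine sum_congr rfl fun i _ => sum_congr rfl fun j _ => ?_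
  simp only [Pi.add_apply]; ring

lemma be_add_right {R C : ℕ} (B : Fin R → Fin C → Z2) (a k k') :
    be B a (k + k') = be B a k + be B a k' := by
  simp only [be, ← sum_add_distrib]
  refine sum_congr rfl fun i _ => sum_congr rfl fun j _ => ?_
  simp only [Pi.add_apply]; ring

/-- `k` lies in the kernel `K_a` -/
def ZZ {R C : ℕ} (M : Fin R → Fin C → G) (a : Fin R → Z2) (k : Fin C → Z2) : Prop :=
  ∀ t, be (pl M t) a k = 0

/-- signed lift of a vector: `ρ` marks the negative signs -/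
def sl {n : ℕ} (ρ a : Fin n → Z2) : Fin n → ℤ := fun i => (1 - 2 * li (ρ i)) * li (a i)

lemma sl_sg {n : ℕ} (ρ a : Fin n → Z2) : Sg (sl ρ a) := by
  intro i; unfold sl li; split_ifs <;> simp

lemma sl_ne {n : ℕ} (ρ a : Fin n → Z2) (h : a ≠ 0) : sl ρ a ≠ 0 := by
  intro h0; apply h; funext i
  have := congrFun h0 i
  unfold sl li at this
  by_contra hi
  have hi' : ¬ a i = 0 := hi
  simp only [hi', if_false] at this
  split_ifs at this <;> simp at this

lemma sl_sub_sg {n : ℕ} (ρ a b : Fin n → Z2) : Sg (sl ρ a - sl ρ b) := by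
  intro i; simp only [Pi.sub_apply]; unfold sl li; split_ifs <;> simp

lemma sl_sub_ne {n : ℕ} (ρ a b : Fin n → Z2) (h : a ≠ b) : sl ρ a - sl ρ b ≠ 0 := by
  intro h0; apply h; funext i
  have := congrFun h0 i
  simp only [Pi.sub_apply, Pi.zero_apply] at this
  unfold sl li at this
  have key : ∀ x y r : Z2, (1 - 2 * (if r = 0 then 0 else 1) : ℤ) * (if x = 0 then 0 else 1) -
     (1 - 2 * (if r = 0 then 0 else 1) : ℤ) * (if y = 0 then 0 else 1) = 0 → x = y := by decide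
  exact key _ _ _ this

lemma T_sub_right {R C : ℕ} (M : Fin R → Fin C → G) (α : Fin R → ℤ) (κ κ' : Fin C → ℤ) :
    T M α (κ - κ') = T M α κ - T M α κ' := by
  simp only [T, ← sum_sub_distrib]
  refine sum_congr rfl fun i _ => sum_congr rfl fun j _ => ?_
  simp only [Pi.sub_apply, mul_sub, sub_smul]

lemma T_sub_left {R C : ℕ} (M : Fin R → Fin C → G) (α α' : Fin R → ℤ) (κ : Fin C → ℤ) :
    T M (α - α') κ = T M α κ - T M α' κ := by
  simp only [T, ← sum_sub_distrib]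
  refine sum_congr rfl fun i _ => sum_congr rfl fun j _ => ?_
  simp only [Pi.sub_apply, sub_mul, sub_smul]

/-- coordinates -/
def x0 {R C : ℕ} (M : Fin R → Fin C → G) (i : Fin R) (j : Fin C) : Z4 := (M i j).1
def x1 {R C : ℕ} (M : Fin R → Fin C → G) (i : Fin R) (j : Fin C) : Z4 := (M i j).2.1

/-- value in `Z4` of a plane with signs -/
def TT {R C : ℕ} (X : Fin R → Fin C → Z4) (α : Fin R → ℤ) (κ : Fin C → ℤ) : Z4 :=
  ∑ i, ∑ j, (((α i * κ j : ℤ) : Z4)) * X i j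

lemma T_fst {R C : ℕ} (M : Fin R → Fin C → G) (α : Fin R → ℤ) (κ : Fin C → ℤ) :
    (T M α κ).1 = TT (x0 M) α κ := by
  simp only [T, TT, x0, Prod.fst_sum, Prod.smul_fst]
  exact sum_congr rfl fun i _ => sum_congr rfl fun j _ => zsmul_eq_mul _ _

lemma T_snd {R C : ℕ} (M : Fin R → Fin C → G) (α : Fin R → ℤ) (κ : Fin C → ℤ) :
    (T M α κ).2.1 = TT (x1 M) α κ := by
  simp only [T, TT, x1, Prod.fst_sum, Prod.snd_sum, Prod.smul_fst, Prod.smul_snd]
  exact sum_congr rfl fun i _ => sum_congr rfl fun j _ => zsmul_eq_mul _ _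

/-- the correction term -/
def cor {R C : ℕ} (B : Fin R → Fin C → Z2) (ρ : Fin R → Z2) (σ : Fin C → Z2)
    (a : Fin R → Z2) (k : Fin C → Z2) : Z2 :=
  ∑ i, ∑ j, (ρ i + σ j) * (a i * k j) * B i j

lemma hf_key : ∀ X Y : Z4, p2 X = 0 → hf (X - 2 * Y) = hf X + p2 Y := by decide

lemma TT_sl {R C : ℕ} (X : Fin R → Fin C → Z4) (ρ σ) (a k) :
    TT X (sl ρ a) (sl σ k) = TT X (sl 0 a) (sl 0 k) -
      2 * ∑ i, ∑ j, (l4 (ρ i) + l4 (σ j)) * (l4 (a i) * l4 (k j)) * X i j := by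
  simp only [TT, mul_sum, ← sum_sub_distrib]
  refine sum_congr rfl fun i _ => sum_congr rfl fun j _ => ?_
  simp only [sl]
  push_cast
  simp only [li_cast]
  generalize X i j = x; generalize a i = p; generalize k j = q; generalize ρ i = r; generalize σ j = s
  have h0 : l4 ((0 : Fin R → Z2) i) = 0 := by simp [l4]
  have h0' : l4 ((0 : Fin C → Z2) j) = 0 := by simp [l4]
  rw [h0, h0']
  revert x p q r s
  decide

lemma TT_par {R C : ℕ} (X : Fin R → Fin C → Z4) (ρ σ) (a k) :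
    p2 (TT X (sl ρ a) (sl σ k)) = be (fun i j => p2 (X i j)) a k := by
  rw [TT, p2_sum, be]
  refine sum_congr rfl fun i _ => ?_
  rw [p2_sum]
  refine sum_congr rfl fun j _ => ?_
  rw [p2_mul]
  congr 1
  simp only [sl]
  push_cast
  simp only [li_cast]
  generalize a i = p; generalize k j = q; generalize ρ i = r; generalize σ j = s
  revert p q r s
  decide

lemma hf_TT {R C : ℕ} (X : Fin R → Fin C → Z4) (ρ σ) (a k)
    (h : be (fun i j => p2 (X i j)) a k = 0) :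
    hf (TT X (sl ρ a) (sl σ k)) = hf (TT X (sl 0 a) (sl 0 k)) +
      cor (fun i j => p2 (X i j)) ρ σ a k := by
  rw [TT_sl, hf_key _ _ (by rw [TT_par]; exact h)]
  congr 1
  rw [p2_sum, cor]
  refine sum_congr rfl fun i _ => ?_
  rw [p2_sum]
  refine sum_congr rfl fun j _ => ?_
  rw [p2_mul, p2_mul, p2_mul, p2_add, p2_l4, p2_l4, p2_l4, p2_l4]

/-- the value in `U` of a signed sum -/
def vv {R C : ℕ} (M : Fin R → Fin C → G) (ρ : Fin R → Z2) (σ : Fin C → Z2) (a : Fin R → Z2)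
    (k : Fin C → Z2) : U :=
  (hf (TT (x0 M) (sl ρ a) (sl σ k)), hf (TT (x1 M) (sl ρ a) (sl σ k)))

/-- `L_{ρσ}` -/
def LL {R C : ℕ} (M : Fin R → Fin C → G) (ρ : Fin R → Z2) (σ : Fin C → Z2) (a : Fin R → Z2)
    (k : Fin C → Z2) : U :=
  (cor (pl M 0) ρ σ a k, cor (pl M 1) ρ σ a k)

lemma vv_eq {R C : ℕ} (M : Fin R → Fin C → G) (ρ σ) (a k) (h : ZZ M a k) :
    vv M ρ σ a k = vv M 0 0 a k + LL M ρ σ a k := by
  unfold vv LL
  rw [hf_TT (x0 M) ρ σ a k (h 0), hf_TT (x1 M) ρ σ a k (h 1)]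
  rfl

lemma par3 {R C : ℕ} (M : Fin R → Fin C → G) (ρ σ) (a k) (h : ZZ M a k) :
    (T M (sl ρ a) (sl σ k)).2.2 = 0 := by
  have e : ∀ (r s p q x : Z2), ((((1 - 2 * li r) * li p) * ((1 - 2 * li s) * li q) : ℤ)) • x
      = p * q * x := by
    intro r s p q x
    rw [zsmul_eq_mul]
    revert r s p q x
    decide
  refine Prod.ext ?_ ?_
  · have h2 := h 2
    simp only [T, Prod.fst_sum, Prod.snd_sum, Prod.smul_fst, Prod.smul_snd]
    rw [← show be (pl M 2) a k = (0 : U).1 from h2, be]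
    refine sum_congr rfl fun i _ => sum_congr rfl fun j _ => ?_
    exact e _ _ _ _ _
  · have h3 := h 3
    simp only [T, Prod.fst_sum, Prod.snd_sum, Prod.smul_fst, Prod.smul_snd]
    rw [← show be (pl M 3) a k = (0 : U).2 from h3, be]
    refine sum_congr rfl fun i _ => sum_congr rfl fun j _ => ?_
    exact e _ _ _ _ _

lemma hf_inj : ∀ x y : Z4, p2 x = 0 → p2 y = 0 → hf x = hf y → x = y := by decide

/-- two signed sums in `U` with the same value are equal -/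
lemma T_eq {R C : ℕ} (M : Fin R → Fin C → G) (ρ σ) (a k a' k') (h : ZZ M a k) (h' : ZZ M a' k')
    (e : vv M ρ σ a k = vv M ρ σ a' k') :
    T M (sl ρ a) (sl σ k) = T M (sl ρ a') (sl σ k') := by
  have e0 := congrArg Prod.fst e
  have e1 := congrArg Prod.snd e
  refine Prod.ext ?_ (Prod.ext ?_ ?_)
  · rw [T_fst, T_fst]
    exact hf_inj _ _ (by rw [TT_par]; exact h 0) (by rw [TT_par]; exact h' 0) e0
  · rw [T_snd, T_snd]
    exact hf_inj _ _ (by rw [TT_par]; exact h 1) (by rw [TT_par]; exact h' 1) e1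
  · rw [par3 M ρ σ a k h, par3 M ρ σ a' k' h']

lemma T_zero_right {R C : ℕ} (M : Fin R → Fin C → G) (α : Fin R → ℤ) : T M α 0 = 0 := by
  simp [T]

lemma vv_ne {R C : ℕ} (M : Fin R → Fin C → G) (hM : HS M) (ρ σ) (a k) (h : ZZ M a k)
    (ha : a ≠ 0) (hk : k ≠ 0) : vv M ρ σ a k ≠ 0 := by
  intro e
  apply hM (sl ρ a) (sl σ k) (sl_sg _ _) (sl_sg _ _) (sl_ne _ _ ha) (sl_ne _ _ hk)
  have e0 := congrArg Prod.fst e
  have e1 := congrArg Prod.snd e
  have z : hf 0 = 0 := by decide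
  have zp : p2 0 = 0 := by decide
  refine Prod.ext ?_ (Prod.ext ?_ ?_)
  · rw [T_fst]
    exact hf_inj _ _ (by rw [TT_par]; exact h 0) zp e0
  · rw [T_snd]
    exact hf_inj _ _ (by rw [TT_par]; exact h 1) zp e1
  · rw [par3 M ρ σ a k h]; rfl

lemma vv_ne_k {R C : ℕ} (M : Fin R → Fin C → G) (hM : HS M) (ρ σ) (a k k') (h : ZZ M a k)
    (h' : ZZ M a k') (ha : a ≠ 0) (hk : k ≠ k') : vv M ρ σ a k ≠ vv M ρ σ a k' := by
  intro e
  have := T_eq M ρ σ a k a k' h h' e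
  apply hM (sl ρ a) (sl σ k - sl σ k') (sl_sg _ _) (sl_sub_sg _ _ _) (sl_ne _ _ ha)
    (sl_sub_ne _ _ _ hk)
  rw [T_sub_right, this, sub_self]

lemma vv_ne_a {R C : ℕ} (M : Fin R → Fin C → G) (hM : HS M) (ρ σ) (a a' k) (h : ZZ M a k)
    (h' : ZZ M a' k) (ha : a ≠ a') (hk : k ≠ 0) : vv M ρ σ a k ≠ vv M ρ σ a' k := by
  intro e
  have := T_eq M ρ σ a k a' k h h' e
  apply hM (sl ρ a - sl ρ a') (sl σ k) (sl_sub_sg _ _ _) (sl_sg _ _) (sl_sub_ne _ _ _ ha)
    (sl_ne _ _ hk)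
  rw [T_sub_left, this, sub_self]

end Pool.Agent.K7.H78.CDM
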