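import Pool.Agent.K7.H78.CDM.Facts

namespace Pool.Agent.K7.H78.CDM

open Finset

lemma cor_add_right {R C : ℕ} (B : Fin R → Fin C → Z2) (ρ σ) (a k k') :
    cor B ρ σ a (k + k') = cor B ρ σ a k + cor B ρ σ a k' := by
  simp only [cor, ← sum_add_distrib]
  refine sum_congr rfl fun i _ => sum_congr rfl fun j _ => ?_
  simp only [Pi.add_apply]; ring

lemma cor_add_left {R C : ℕ} (B : Fin R → Fin C → Z2) (ρ σ) (a a' k) :
    cor B ρ σ (a + a') k = cor B ρ σ a k + cor B ρ σ a' k := by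
  simp only [cor, ← sum_add_distrib]
  refine sum_congr rfl fun i _ => sum_congr rfl fun j _ => ?_
  simp only [Pi.add_apply]; ring

lemma cor_add {R C : ℕ} (B : Fin R → Fin C → Z2) (ρ σ ρ' σ') (a k) :
    cor B (ρ + ρ') (σ + σ') a k = cor B ρ σ a k + cor B ρ' σ' a k := by
  simp only [cor, ← sum_add_distrib]
  refine sum_congr rfl fun i _ => sum_congr rfl fun j _ => ?_
  simp only [Pi.add_apply]; ring

lemma LL_add_right {R C : ℕ} (M : Fin R → Fin C → G) (ρ σ) (a k k') :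
    LL M ρ σ a (k + k') = LL M ρ σ a k + LL M ρ σ a k' := by
  simp [LL, cor_add_right]

lemma LL_add_left {R C : ℕ} (M : Fin R → Fin C → G) (ρ σ) (a a' k) :
    LL M ρ σ (a + a') k = LL M ρ σ a k + LL M ρ σ a' k := by
  simp [LL, cor_add_left]

lemma LL_add {R C : ℕ} (M : Fin R → Fin C → G) (ρ σ ρ' σ') (a k) :
    LL M (ρ + ρ') (σ + σ') a k = LL M ρ σ a k + LL M ρ' σ' a k := by
  simp [LL, cor_add]

lemma ZZ_add_right {R C : ℕ} {M : Fin R → Fin C → G} {a k k'} (h : ZZ M a k) (h' : ZZ M a k') :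
    ZZ M a (k + k') := fun t => by rw [be_add_right, h t, h' t, add_zero]

lemma ZZ_add_left {R C : ℕ} {M : Fin R → Fin C → G} {a a' k} (h : ZZ M a k) (h' : ZZ M a' k) :
    ZZ M (a + a') k := fun t => by rw [be_add_left, h t, h' t, add_zero]

set_option synthInstance.maxSize 5000 in
lemma fin_key : ∀ v1 v2 f1 f2 g1 g2 : U, v1 ≠ 0 → v2 ≠ 0 → v1 ≠ v2 → v1 + f1 ≠ 0 → v2 + f2 ≠ 0 →
    v1 + f1 ≠ v2 + f2 → v1 + g1 ≠ 0 → v2 + g2 ≠ 0 → v1 + g1 ≠ v2 + g2 →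
    v1 + (f1 + g1) ≠ 0 → v2 + (f2 + g2) ≠ 0 → v1 + (f1 + g1) ≠ v2 + (f2 + g2) →
    (f1 = 0 ∧ f2 = 0) ∨ (g1 = 0 ∧ g2 = 0) ∨ (f1 = g1 ∧ f2 = g2) := by
  decide +kernel

/-- `Θ_a` has dimension at most one. -/
theorem theta_a {R C : ℕ} (M : Fin R → Fin C → G) (hM : HS M) (ρ σ ρ' σ') {a k1 k2}
    (ha : a ≠ 0) (h1 : ZZ M a k1) (h2 : ZZ M a k2) (n1 : k1 ≠ 0) (n2 : k2 ≠ 0) (n12 : k1 ≠ k2) :
    (LL M ρ σ a k1 = 0 ∧ LL M ρ σ a k2 = 0) ∨ (LL M ρ' σ' a k1 = 0 ∧ LL M ρ' σ' a k2 = 0) ∨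
    (LL M ρ σ a k1 = LL M ρ' σ' a k1 ∧ LL M ρ σ a k2 = LL M ρ' σ' a k2) := by
  have A : ∀ r s, vv M 0 0 a k1 + LL M r s a k1 ≠ 0 := fun r s => by
    rw [← vv_eq M r s a k1 h1]; exact vv_ne M hM r s a k1 h1 ha n1
  have B : ∀ r s, vv M 0 0 a k2 + LL M r s a k2 ≠ 0 := fun r s => by
    rw [← vv_eq M r s a k2 h2]; exact vv_ne M hM r s a k2 h2 ha n2
  have D : ∀ r s, vv M 0 0 a k1 + LL M r s a k1 ≠ vv M 0 0 a k2 + LL M r s a k2 := fun r s => by
    rw [← vv_eq M r s a k1 h1, ← vv_eq M r s a k2 h2]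
    exact vv_ne_k M hM r s a k1 k2 h1 h2 ha n12
  have A3 := A (ρ + ρ') (σ + σ'); have B3 := B (ρ + ρ') (σ + σ'); have D3 := D (ρ + ρ') (σ + σ')
  rw [LL_add] at A3 B3
  rw [LL_add, LL_add] at D3
  exact fin_key _ _ _ _ _ _ (vv_ne M hM 0 0 a k1 h1 ha n1) (vv_ne M hM 0 0 a k2 h2 ha n2)
    (vv_ne_k M hM 0 0 a k1 k2 h1 h2 ha n12) (A ρ σ) (B ρ σ) (D ρ σ) (A ρ' σ') (B ρ' σ') (D ρ' σ')
    A3 B3 D3

/-- `Θ^k` has dimension at most one. -/
theorem theta_k {R C : ℕ} (M : Fin R → Fin C → G) (hM : HS M) (ρ σ ρ' σ') {k a1 a2}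
    (hk : k ≠ 0) (h1 : ZZ M a1 k) (h2 : ZZ M a2 k) (n1 : a1 ≠ 0) (n2 : a2 ≠ 0) (n12 : a1 ≠ a2) :
    (LL M ρ σ a1 k = 0 ∧ LL M ρ σ a2 k = 0) ∨ (LL M ρ' σ' a1 k = 0 ∧ LL M ρ' σ' a2 k = 0) ∨
    (LL M ρ σ a1 k = LL M ρ' σ' a1 k ∧ LL M ρ σ a2 k = LL M ρ' σ' a2 k) := by
  have A : ∀ r s, vv M 0 0 a1 k + LL M r s a1 k ≠ 0 := fun r s => by
    rw [← vv_eq M r s a1 k h1]; exact vv_ne M hM r s a1 k h1 n1 hk
  have B : ∀ r s, vv M 0 0 a2 k + LL M r s a2 k ≠ 0 := fun r s => by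
    rw [← vv_eq M r s a2 k h2]; exact vv_ne M hM r s a2 k h2 n2 hk
  have D : ∀ r s, vv M 0 0 a1 k + LL M r s a1 k ≠ vv M 0 0 a2 k + LL M r s a2 k := fun r s => by
    rw [← vv_eq M r s a1 k h1, ← vv_eq M r s a2 k h2]
    exact vv_ne_a M hM r s a1 a2 k h1 h2 n12 hk
  have A3 := A (ρ + ρ') (σ + σ'); have B3 := B (ρ + ρ') (σ + σ'); have D3 := D (ρ + ρ') (σ + σ')
  rw [LL_add] at A3 B3
  rw [LL_add, LL_add] at D3
  exact fin_key _ _ _ _ _ _ (vv_ne M hM 0 0 a1 k h1 n1 hk) (vv_ne M hM 0 0 a2 k h2 n2 hk)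
    (vv_ne_a M hM 0 0 a1 a2 k h1 h2 n12 hk) (A ρ σ) (B ρ σ) (D ρ σ) (A ρ' σ') (B ρ' σ') (D ρ' σ')
    A3 B3 D3

/-- one colour at a single pair `(a,k)` : any two corrections are equal or one is zero -/
lemma fin_key1 : ∀ v f g : U, v ≠ 0 → v + f ≠ 0 → v + g ≠ 0 → v + (f + g) ≠ 0 →
    f = 0 ∨ g = 0 ∨ f = g := by decide

theorem one_colour {R C : ℕ} (M : Fin R → Fin C → G) (hM : HS M) (ρ σ ρ' σ') {k a}
    (hk : k ≠ 0) (ha : a ≠ 0) (h : ZZ M a k) :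
    LL M ρ σ a k = 0 ∨ LL M ρ' σ' a k = 0 ∨ LL M ρ σ a k = LL M ρ' σ' a k := by
  have A : ∀ r s, vv M 0 0 a k + LL M r s a k ≠ 0 := fun r s => by
    rw [← vv_eq M r s a k h]; exact vv_ne M hM r s a k h ha hk
  have A3 := A (ρ + ρ') (σ + σ')
  rw [LL_add] at A3
  exact fin_key1 _ _ _ (vv_ne M hM 0 0 a k h ha hk) (A ρ σ) (A ρ' σ') A3

set_option synthInstance.maxSize 5000 in
lemma fin_four : ∀ p q r s : U, p ≠ 0 → q ≠ 0 → r ≠ 0 → s ≠ 0 → p ≠ q → p ≠ r → p ≠ s → q ≠ r →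
    q ≠ s → r ≠ s → False := by decide

/-- at most three nonzero elements in `A_k` -/
theorem no_four {R C : ℕ} (M : Fin R → Fin C → G) (hM : HS M) {k a b c d}
    (hk : k ≠ 0) (ha : ZZ M a k) (hb : ZZ M b k) (hc : ZZ M c k) (hd : ZZ M d k)
    (a0 : a ≠ 0) (b0 : b ≠ 0) (c0 : c ≠ 0) (d0 : d ≠ 0) (ab : a ≠ b) (ac : a ≠ c) (ad : a ≠ d)
    (bc : b ≠ c) (bd : b ≠ d) (cd : c ≠ d) : False :=
  fin_four _ _ _ _ (vv_ne M hM 0 0 a k ha a0 hk) (vv_ne M hM 0 0 b k hb b0 hk)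
    (vv_ne M hM 0 0 c k hc c0 hk) (vv_ne M hM 0 0 d k hd d0 hk)
    (vv_ne_a M hM 0 0 _ _ k ha hb ab hk) (vv_ne_a M hM 0 0 _ _ k ha hc ac hk)
    (vv_ne_a M hM 0 0 _ _ k ha hd ad hk) (vv_ne_a M hM 0 0 _ _ k hb hc bc hk)
    (vv_ne_a M hM 0 0 _ _ k hb hd bd hk) (vv_ne_a M hM 0 0 _ _ k hc hd cd hk)

/-- `a + b ≠ c` version: no three independent elements of `A_k`. -/
theorem no_three {R C : ℕ} (M : Fin R → Fin C → G) (hM : HS M) {k a b c}
    (hk : k ≠ 0) (ha : ZZ M a k) (hb : ZZ M b k) (hc : ZZ M c k)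
    (a0 : a ≠ 0) (b0 : b ≠ 0) (c0 : c ≠ 0) (ab : a ≠ b) (ac : a ≠ c)
    (bc : b ≠ c) (abc : a + b ≠ c) : False := by
  have s2 : ∀ x : Fin R → Z2, x + x = 0 := fun x => by
    funext i; simp only [Pi.add_apply]; exact CharTwo.add_self_eq_zero _
  refine no_four M hM hk ha hb hc (ZZ_add_left ha hb) a0 b0 c0 ?_ ab ac ?_ bc ?_ (Ne.symm abc)
  · intro h; apply ab
    have := congrArg (· + b) h
    simp only [add_assoc, s2, add_zero, zero_add] at this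
    exact this
  · intro h; apply b0
    have := congrArg (a + ·) h
    simp only [← add_assoc, s2, zero_add] at this
    exact this.symm
  · intro h; apply a0
    have := congrArg (· + b) h
    simp only [add_assoc, s2, add_zero] at this
    exact this.symm

section count

variable {M : Fin 4 → Fin 6 → G}

lemma T_bij (hM : HS M) {a : Fin 4 → Z2} (ha : a ≠ 0) :
    Function.Bijective (fun k : Fin 6 → Z2 => T M (sl 0 a) (sl 0 k)) := by
  rw [Fintype.bijective_iff_injective_and_card]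
  refine ⟨?_, ?_⟩
  · intro k k' h
    by_contra hk
    apply hM (sl 0 a) (sl 0 k - sl 0 k') (sl_sg _ _) (sl_sub_sg _ _ _) (sl_ne _ _ ha)
      (sl_sub_ne _ _ _ hk)
    rw [T_sub_right]; exact sub_eq_zero.2 h
  · simp [ZMod.card]

lemma T_pl (a : Fin 4 → Z2) (k : Fin 6 → Z2) :
    p2 (T M (sl 0 a) (sl 0 k)).1 = be (pl M 0) a k ∧ p2 (T M (sl 0 a) (sl 0 k)).2.1 = be (pl M 1) a k ∧
    (T M (sl 0 a) (sl 0 k)).2.2.1 = be (pl M 2) a k ∧
    (T M (sl 0 a) (sl 0 k)).2.2.2 = be (pl M 3) a k := by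
  have e : ∀ (r s p q x : Z2), ((((1 - 2 * li r) * li p) * ((1 - 2 * li s) * li q) : ℤ)) • x
      = p * q * x := by
    intro r s p q x
    rw [zsmul_eq_mul]
    revert r s p q x
    decide
  refine ⟨?_, ?_, ?_, ?_⟩
  · rw [T_fst, TT_par]; rfl
  · rw [T_snd, TT_par]; rfl
  · simp only [T, Prod.fst_sum, Prod.snd_sum, Prod.smul_fst, Prod.smul_snd, be]
    refine sum_congr rfl fun i _ => sum_congr rfl fun j _ => ?_
    exact e _ _ _ _ _
  · simp only [T, Prod.snd_sum, Prod.smul_snd, be]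
    refine sum_congr rfl fun i _ => sum_congr rfl fun j _ => ?_
    exact e _ _ _ _ _

lemma ZZ_iff (a : Fin 4 → Z2) (k : Fin 6 → Z2) : ZZ M a k ↔
    (p2 (T M (sl 0 a) (sl 0 k)).1 = 0 ∧ p2 (T M (sl 0 a) (sl 0 k)).2.1 = 0 ∧
      (T M (sl 0 a) (sl 0 k)).2.2 = 0) := by
  obtain ⟨h0, h1, h2, h3⟩ := T_pl (M := M) a k
  constructor
  · intro h
    refine ⟨by rw [h0]; exact h 0, by rw [h1]; exact h 1, Prod.ext ?_ ?_⟩
    · rw [h2]; exact h 2
    · rw [h3]; exact h 3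
  · rintro ⟨g0, g1, g2⟩ t
    fin_cases t
    · show be (pl M 0) a k = 0
      rw [← h0]; exact g0
    · show be (pl M 1) a k = 0
      rw [← h1]; exact g1
    · show be (pl M 2) a k = 0
      rw [← h2, g2]; rfl
    · show be (pl M 3) a k = 0
      rw [← h3, g2]; rfl

instance (M : Fin 4 → Fin 6 → G) (a k) : Decidable (ZZ M a k) :=
  inferInstanceAs (Decidable (∀ t, be (pl M t) a k = 0))

lemma card_K (hM : HS M) {a : Fin 4 → Z2} (ha : a ≠ 0) :
    (univ.filter fun k : Fin 6 → Z2 => ZZ M a k).card = 4 := by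
  have e : (univ.filter fun g : G => p2 g.1 = 0 ∧ p2 g.2.1 = 0 ∧ g.2.2 = 0).card = 4 := by
    decide +kernel
  refine Eq.trans ?_ e
  refine card_bij (fun k _ => T M (sl 0 a) (sl 0 k)) ?_ ?_ ?_
  · intro k hk
    simp only [mem_filter, mem_univ, true_and] at hk ⊢
    exact (ZZ_iff a k).1 hk
  · intro k _ k' _ h
    exact (T_bij hM ha).1 h
  · intro g hg
    obtain ⟨k, hk⟩ := (T_bij hM ha).2 g
    simp only [mem_filter, mem_univ, true_and] at hg
    refine ⟨k, ?_, hk⟩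
    simp only [mem_filter, mem_univ, true_and]
    rw [ZZ_iff]
    simp only at hk
    rw [hk]; exact hg

/-- exact form of `K_a` -/
theorem K_form (hM : HS M) {a : Fin 4 → Z2} (ha : a ≠ 0) :
    ∃ k1 k2 : Fin 6 → Z2, k1 ≠ 0 ∧ k2 ≠ 0 ∧ k1 ≠ k2 ∧
      ∀ k, ZZ M a k ↔ (k = 0 ∨ k = k1 ∨ k = k2 ∨ k = k1 + k2) := by
  have s2 : ∀ x : Fin 6 → Z2, x + x = 0 := fun x => by
    funext i; simp only [Pi.add_apply]; exact CharTwo.add_self_eq_zero _
  have h4 := card_K hM ha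
  set S := univ.filter fun k : Fin 6 → Z2 => ZZ M a k with hS
  have z0 : (0 : Fin 6 → Z2) ∈ S := by
    simp only [hS, mem_filter, mem_univ, true_and]
    intro t; simp [be]
  obtain ⟨k1, h1, n1⟩ : ∃ k ∈ S, k ≠ 0 := by
    by_contra h; push_neg at h
    have : S ⊆ {0} := fun x hx => by simp [h x hx]
    have := card_le_card this
    simp at this; omega
  obtain ⟨k2, h2, n2, n12⟩ : ∃ k ∈ S, k ≠ 0 ∧ k ≠ k1 := by
    by_contra h; push_neg at h
    have : S ⊆ {0, k1} := fun x hx => by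
      by_cases hx0 : x = 0
      · simp [hx0]
      · simp [h x hx hx0]
    have := (card_le_card this).trans card_le_two
    omega
  have m1 : ZZ M a k1 := by simpa [hS] using h1
  have m2 : ZZ M a k2 := by simpa [hS] using h2
  have h3 : k1 + k2 ∈ S := by simp only [hS, mem_filter, mem_univ, true_and]; exact ZZ_add_right m1 m2
  have e4 : ({0, k1, k2, k1 + k2} : Finset (Fin 6 → Z2)) = S := by
    apply eq_of_subset_of_card_le
    · intro x hx
      simp only [mem_insert, mem_singleton] at hx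
      rcases hx with rfl | rfl | rfl | rfl
      · exact z0
      · exact h1
      · exact h2
      · exact h3
    · rw [h4]
      have c1 : (0 : Fin 6 → Z2) ∉ ({k1, k2, k1 + k2} : Finset (Fin 6 → Z2)) := by
        simp only [mem_insert, mem_singleton, not_or]
        refine ⟨n1.symm, n2.symm, ?_⟩
        intro h; apply n12
        have := congrArg (k1 + ·) h
        simp only [← add_assoc, s2, zero_add, add_zero] at this
        exact this.symm
      have c2 : k1 ∉ ({k2, k1 + k2} : Finset (Fin 6 → Z2)) := by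
        simp only [mem_insert, mem_singleton, not_or]
        refine ⟨n12.symm, ?_⟩
        intro h; apply n2
        have := congrArg (k1 + ·) h
        simp only [← add_assoc, s2, zero_add] at this
        exact this.symm
      have c3 : k2 ∉ ({k1 + k2} : Finset (Fin 6 → Z2)) := by
        simp only [mem_singleton]
        intro h; apply n1
        have := congrArg (· + k2) h
        simp only [add_assoc, s2, add_zero] at this
        exact this.symm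
      rw [card_insert_of_notMem c1, card_insert_of_notMem c2, card_insert_of_notMem c3,
        card_singleton]
  refine ⟨k1, k2, n1, n2, n12.symm, fun k => ?_⟩
  have : ZZ M a k ↔ k ∈ S := by simp [hS]
  rw [this, ← e4]
  simp only [mem_insert, mem_singleton]

end count

end Pool.Agent.K7.H78.CDM
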