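import Pool.Agent.K7.H78.CDM.Facts2

/-! Facts in terms of bitmasks `a < 16`, `k < 64`. -/

namespace Pool.Agent.K7.H78.CDM

open Finset

/-- the vector of a bitmask -/
def vec (n x : ℕ) : Fin n → Z2 := fun i => if x.testBit i then 1 else 0

lemma vec_xor (n x y : ℕ) : vec n (x ^^^ y) = vec n x + vec n y := by
  funext i
  simp only [vec, Nat.testBit_xor, Pi.add_apply]
  cases x.testBit i <;> cases y.testBit i <;> decide

lemma vec_zero (n : ℕ) : vec n 0 = 0 := by funext i; simp [vec]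

lemma vec_inj {n x y : ℕ} (hx : x < 2 ^ n) (hy : y < 2 ^ n) (h : vec n x = vec n y) : x = y := by
  apply Nat.eq_of_testBit_eq
  intro i
  by_cases hi : i < n
  · have := congrFun h ⟨i, hi⟩
    simp only [vec] at this
    revert this
    cases x.testBit i <;> cases y.testBit i <;> decide
  · rw [Nat.testBit_lt_two_pow (lt_of_lt_of_le hx (Nat.pow_le_pow_right (by norm_num) (by omega))),
      Nat.testBit_lt_two_pow (lt_of_lt_of_le hy (Nat.pow_le_pow_right (by norm_num) (by omega)))]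

lemma vec_ne {n x : ℕ} (hx : x < 2 ^ n) (h : x ≠ 0) : vec n x ≠ 0 := by
  intro h0
  exact h (vec_inj hx (by positivity) (by rw [h0, vec_zero]))

lemma vec_surj {n : ℕ} (v : Fin n → Z2) : ∃ x < 2 ^ n, vec n x = v := by
  have : Function.Bijective (fun x : Fin (2 ^ n) => vec n x) := by
    rw [Fintype.bijective_iff_injective_and_card]
    refine ⟨fun x y h => Fin.ext (vec_inj x.2 y.2 h), by simp [ZMod.card]⟩
  obtain ⟨x, hx⟩ := this.2 v
  exact ⟨x, x.2, hx⟩

variable (M : Fin 4 → Fin 6 → G)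

/-- parity plane `t` at the masks `a`, `k` -/
def bb (t : Fin 4) (a k : ℕ) : Bool := decide (be (pl M t) (vec 4 a) (vec 6 k) = 1)
/-- `k ∈ K_a` -/
def Zb (a k : ℕ) : Bool := decide (ZZ M (vec 4 a) (vec 6 k))

/-- the value of `D` in `U` -/
def DU (a k : ℕ) : Bool × Bool := (bb M 0 a k, bb M 1 a k)

/-- three functionals on `U` -/
def fn : Fin 3 → Bool × Bool → Bool
  | 0, u => u.1
  | 1, u => u.2
  | 2, u => xor u.1 u.2

variable {M}

lemma z2_cases (x : Z2) : x = 0 ∨ x = 1 := by revert x; decide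

lemma bb_xor_right (t a k k') : bb M t a (k ^^^ k') = xor (bb M t a k) (bb M t a k') := by
  unfold bb
  rw [vec_xor, be_add_right]
  rcases z2_cases (be (pl M t) (vec 4 a) (vec 6 k)) with h | h <;>
  rcases z2_cases (be (pl M t) (vec 4 a) (vec 6 k')) with h' | h' <;> rw [h, h'] <;> decide

lemma bb_xor_left (t a a' k) : bb M t (a ^^^ a') k = xor (bb M t a k) (bb M t a' k) := by
  unfold bb
  rw [vec_xor, be_add_left]
  rcases z2_cases (be (pl M t) (vec 4 a) (vec 6 k)) with h | h <;>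
  rcases z2_cases (be (pl M t) (vec 4 a') (vec 6 k)) with h' | h' <;> rw [h, h'] <;> decide

lemma bb_zero_right (t a) : bb M t a 0 = false := by
  have := bb_xor_right (M := M) t a 0 0
  rw [Nat.xor_self] at this
  cases h : bb M t a 0 <;> simp_all

lemma bb_zero_left (t k) : bb M t 0 k = false := by
  have := bb_xor_left (M := M) t 0 0 k
  rw [Nat.xor_self] at this
  cases h : bb M t 0 k <;> simp_all

lemma Zb_iff (a k) : Zb M a k = true ↔ ∀ t, bb M t a k = false := by
  unfold Zb bb ZZ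
  simp only [decide_eq_true_eq, decide_eq_false_iff_not]
  refine forall_congr' fun t => ?_
  rcases z2_cases (be (pl M t) (vec 4 a) (vec 6 k)) with h | h <;> simp [h]

lemma Zb_ZZ {a k} (h : Zb M a k = true) : ZZ M (vec 4 a) (vec 6 k) := by
  simpa [Zb] using h

lemma Zb_xor_right {a k k'} (h : Zb M a k = true) (h' : Zb M a k' = true) :
    Zb M a (k ^^^ k') = true := by
  rw [Zb_iff] at *
  intro t; rw [bb_xor_right, h t, h' t]; rfl

lemma Zb_xor_left {a a' k} (h : Zb M a k = true) (h' : Zb M a' k = true) :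
    Zb M (a ^^^ a') k = true := by
  rw [Zb_iff] at *
  intro t; rw [bb_xor_left, h t, h' t]; rfl

lemma Zb_D {a k} (h : Zb M a k = true) (t : Fin 4) : bb M t a k = false := (Zb_iff a k).1 h t

/-- fact 2 -/
theorem K_mask (hM : HS M) {a : ℕ} (ha : a < 16) (a0 : a ≠ 0) :
    ∃ k1 k2, k1 < 64 ∧ k2 < 64 ∧ k1 ≠ 0 ∧ k2 ≠ 0 ∧ k1 ≠ k2 ∧
      ∀ k < 64, (Zb M a k = true ↔ (k = 0 ∨ k = k1 ∨ k = k2 ∨ k = k1 ^^^ k2)) := by
  obtain ⟨v1, v2, n1, n2, n12, h⟩ := K_form hM (vec_ne (n := 4) (by simpa using ha) a0)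
  obtain ⟨k1, l1, e1⟩ := vec_surj v1
  obtain ⟨k2, l2, e2⟩ := vec_surj v2
  have l1' : k1 < 64 := by simpa using l1
  have l2' : k2 < 64 := by simpa using l2
  refine ⟨k1, k2, l1', l2', ?_, ?_, ?_, fun k hk => ?_⟩
  · rintro rfl; exact n1 (by rw [← e1, vec_zero])
  · rintro rfl; exact n2 (by rw [← e2, vec_zero])
  · rintro rfl; exact n12 (by rw [← e1, ← e2])
  · have hk' : k < 2 ^ 6 := by simpa using hk
    have hx : k1 ^^^ k2 < 2 ^ 6 := Nat.xor_lt_two_pow l1 l2
    have : Zb M a k = true ↔ ZZ M (vec 4 a) (vec 6 k) := by simp [Zb]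
    rw [this, h]
    constructor
    · rintro (e | e | e | e)
      · left; exact vec_inj hk' (by norm_num) (by rw [e, vec_zero])
      · right; left; exact vec_inj hk' l1 (by rw [e, e1])
      · right; right; left; exact vec_inj hk' l2 (by rw [e, e2])
      · right; right; right; exact vec_inj hk' hx (by rw [e, vec_xor, e1, e2])
    · rintro (rfl | rfl | rfl | rfl)
      · left; exact vec_zero _
      · right; left; exact e1
      · right; right; left; exact e2
      · right; right; right; rw [vec_xor, e1, e2]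

/-- fact 4 -/
theorem no_three_mask (hM : HS M) {k a b c : ℕ} (hk : k < 64) (k0 : k ≠ 0) (ha : a < 16)
    (hb : b < 16) (hc : c < 16) (a0 : a ≠ 0) (b0 : b ≠ 0) (c0 : c ≠ 0) (ab : a ≠ b) (ac : a ≠ c)
    (bc : b ≠ c) (abc : a ^^^ b ≠ c) (za : Zb M a k = true) (zb : Zb M b k = true)
    (zc : Zb M c k = true) : False := by
  have ha' : a < 2 ^ 4 := by simpa using ha
  have hb' : b < 2 ^ 4 := by simpa using hb
  have hc' : c < 2 ^ 4 := by simpa using hc
  refine no_three M hM (vec_ne (n := 6) (by simpa using hk) k0) (Zb_ZZ za) (Zb_ZZ zb) (Zb_ZZ zc)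
    (vec_ne ha' a0) (vec_ne hb' b0) (vec_ne hc' c0) ?_ ?_ ?_ ?_
  · exact fun h => ab (vec_inj ha' hb' h)
  · exact fun h => ac (vec_inj ha' hc' h)
  · exact fun h => bc (vec_inj hb' hc' h)
  · intro h; rw [← vec_xor] at h
    exact abc (vec_inj (Nat.xor_lt_two_pow ha' hb') hc' h)

/-- generators: rows `inl i`, columns `inr j` -/
def gen (M : Fin 4 → Fin 6 → G) (g : Fin 4 ⊕ Fin 6) (a k : ℕ) : Bool × Bool :=
  match g with
  | .inl i => if a.testBit i then DU M (2 ^ (i : ℕ)) k else (false, false)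
  | .inr j => if k.testBit j then DU M a (2 ^ (j : ℕ)) else (false, false)

/-- the sign patterns of a generator -/
def gr : Fin 4 ⊕ Fin 6 → Fin 4 → Z2
  | .inl i => Pi.single i 1
  | .inr _ => 0
def gc : Fin 4 ⊕ Fin 6 → Fin 6 → Z2
  | .inl _ => 0
  | .inr j => Pi.single j 1

/-- Bool version of elements of `U` -/
def ub (u : U) : Bool × Bool := (decide (u.1 = 1), decide (u.2 = 1))

lemma ub_inj : ∀ u v : U, ub u = ub v ↔ u = v := by decide
lemma ub_zero : ub 0 = (false, false) := by decide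

lemma vec_two_pow {n : ℕ} (i : Fin n) : vec n (2 ^ (i : ℕ)) = Pi.single i 1 := by
  funext j
  simp only [vec, Nat.testBit_two_pow, Pi.single_apply]
  by_cases h : j = i
  · subst h; simp
  · have : ¬ ((i : ℕ) = (j : ℕ)) := fun e => h (Fin.ext e.symm)
    simp [h, this]

lemma cor_row (B : Fin 4 → Fin 6 → Z2) (i : Fin 4) (a : Fin 4 → Z2) (k : Fin 6 → Z2) :
    cor B (Pi.single i 1) 0 a k = a i * be B (Pi.single i 1) k := by
  simp only [cor, be, Pi.single_apply, Pi.zero_apply, add_zero]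
  rw [sum_eq_single i, sum_eq_single i]
  · simp only [if_true, one_mul, mul_sum]
    exact sum_congr rfl fun j _ => by ring
  · intro b _ hb; simp [hb]
  · simp
  · intro b _ hb; simp [hb]
  · simp

lemma cor_col (B : Fin 4 → Fin 6 → Z2) (j : Fin 6) (a : Fin 4 → Z2) (k : Fin 6 → Z2) :
    cor B 0 (Pi.single j 1) a k = k j * be B a (Pi.single j 1) := by
  simp only [cor, be, Pi.single_apply, Pi.zero_apply, zero_add, mul_sum]
  refine sum_congr rfl fun i _ => ?_
  rw [sum_eq_single j, sum_eq_single j]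
  · simp only [if_true, one_mul, mul_one]; ring
  · intro b _ hb; simp [hb]
  · simp
  · intro b _ hb; simp [hb]
  · simp

lemma gen_LL (g : Fin 4 ⊕ Fin 6) (a k : ℕ) :
    gen M g a k = ub (LL M (gr g) (gc g) (vec 4 a) (vec 6 k)) := by
  cases g with
  | inl i =>
    simp only [gen, gr, gc, LL, cor_row, DU, bb, ub, vec_two_pow]
    by_cases h : a.testBit i
    · have : vec 4 a i = 1 := by simp [vec, h]
      simp [h, this]
    · have : vec 4 a i = 0 := by simp [vec, h]
      simp [h, this]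
  | inr j =>
    simp only [gen, gr, gc, LL, cor_col, DU, bb, ub, vec_two_pow]
    by_cases h : k.testBit j
    · have : vec 6 k j = 1 := by simp [vec, h]
      simp [h, this]
    · have : vec 6 k j = 0 := by simp [vec, h]
      simp [h, this]

lemma gen_xor_right (g : Fin 4 ⊕ Fin 6) (a k k' : ℕ) :
    gen M g a (k ^^^ k') = (xor (gen M g a k).1 (gen M g a k').1, xor (gen M g a k).2 (gen M g a k').2) := by
  rw [gen_LL, gen_LL, gen_LL, vec_xor, LL_add_right]
  generalize LL M (gr g) (gc g) (vec 4 a) (vec 6 k) = x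
  generalize LL M (gr g) (gc g) (vec 4 a) (vec 6 k') = y
  revert x y; decide

lemma gen_xor_left (g : Fin 4 ⊕ Fin 6) (a a' k : ℕ) :
    gen M g (a ^^^ a') k = (xor (gen M g a k).1 (gen M g a' k).1, xor (gen M g a k).2 (gen M g a' k).2) := by
  rw [gen_LL, gen_LL, gen_LL, vec_xor, LL_add_left]
  generalize LL M (gr g) (gc g) (vec 4 a) (vec 6 k) = x
  generalize LL M (gr g) (gc g) (vec 4 a') (vec 6 k) = y
  revert x y; decide

/-- fact 7a: any two generators at `a`: one vanishes on `K_a` or they agree on `K_a`. -/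
theorem gen_a (hM : HS M) {a : ℕ} (ha : a < 16) (a0 : a ≠ 0) (g h : Fin 4 ⊕ Fin 6) :
    (∀ k < 64, Zb M a k = true → gen M g a k = (false, false)) ∨
    (∀ k < 64, Zb M a k = true → gen M h a k = (false, false)) ∨
    (∀ k < 64, Zb M a k = true → gen M g a k = gen M h a k) := by
  obtain ⟨k1, k2, l1, l2, n1, n2, n12, hK⟩ := K_mask hM ha a0
  have z1 : Zb M a k1 = true := (hK k1 l1).2 (by simp)
  have z2 : Zb M a k2 = true := (hK k2 l2).2 (by simp)
  have l1' : k1 < 2 ^ 6 := by simpa using l1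
  have l2' : k2 < 2 ^ 6 := by simpa using l2
  have g0 : ∀ g : Fin 4 ⊕ Fin 6, gen M g a 0 = (false, false) := by
    intro g
    have := gen_xor_right (M := M) g a 0 0
    rw [Nat.xor_self] at this
    rw [this]; simp
  have key := theta_a M hM (gr g) (gc g) (gr h) (gc h) (vec_ne (n := 4) (by simpa using ha) a0)
    (Zb_ZZ z1) (Zb_ZZ z2) (vec_ne l1' n1) (vec_ne l2' n2) (fun e => n12 (vec_inj l1' l2' e))
  rcases key with ⟨e1, e2⟩ | ⟨e1, e2⟩ | ⟨e1, e2⟩
  · left
    intro k hk hz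
    rcases (hK k hk).1 hz with rfl | rfl | rfl | rfl
    · exact g0 g
    · rw [gen_LL, e1, ub_zero]
    · rw [gen_LL, e2, ub_zero]
    · rw [gen_xor_right, gen_LL, gen_LL, e1, e2, ub_zero]; rfl
  · right; left
    intro k hk hz
    rcases (hK k hk).1 hz with rfl | rfl | rfl | rfl
    · exact g0 h
    · rw [gen_LL, e1, ub_zero]
    · rw [gen_LL, e2, ub_zero]
    · rw [gen_xor_right, gen_LL, gen_LL, e1, e2, ub_zero]; rfl
  · right; right
    intro k hk hz
    rcases (hK k hk).1 hz with rfl | rfl | rfl | rfl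
    · rw [g0, g0]
    · rw [gen_LL, gen_LL, e1]
    · rw [gen_LL, gen_LL, e2]
    · rw [gen_xor_right, gen_xor_right, gen_LL, gen_LL, gen_LL, gen_LL, e1, e2]

/-- fact one colour: at a pair of `K`. -/
theorem gen_col (hM : HS M) {a k : ℕ} (ha : a < 16) (a0 : a ≠ 0) (hk : k < 64) (k0 : k ≠ 0)
    (hz : Zb M a k = true) (g h : Fin 4 ⊕ Fin 6) :
    gen M g a k = (false, false) ∨ gen M h a k = (false, false) ∨ gen M g a k = gen M h a k := by
  have := one_colour M hM (gr g) (gc g) (gr h) (gc h) (vec_ne (n := 6) (by simpa using hk) k0)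
    (vec_ne (n := 4) (by simpa using ha) a0) (Zb_ZZ hz)
  rw [gen_LL, gen_LL]
  rcases this with e | e | e
  · left; rw [e, ub_zero]
  · right; left; rw [e, ub_zero]
  · right; right; rw [e]

/-- fact 7k -/
theorem gen_k (hM : HS M) {k : ℕ} (hk : k < 64) (k0 : k ≠ 0) (g h : Fin 4 ⊕ Fin 6) :
    (∀ a < 16, Zb M a k = true → gen M g a k = (false, false)) ∨
    (∀ a < 16, Zb M a k = true → gen M h a k = (false, false)) ∨
    (∀ a < 16, Zb M a k = true → gen M g a k = gen M h a k) := by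
  have g0 : ∀ g : Fin 4 ⊕ Fin 6, gen M g 0 k = (false, false) := by
    intro g
    have := gen_xor_left (M := M) g 0 0 k
    rw [Nat.xor_self] at this
    rw [this]; simp
  by_contra hcon
  push_neg at hcon
  obtain ⟨⟨a1, l1, z1, e1⟩, ⟨a2, l2, z2, e2⟩, ⟨a3, l3, z3, e3⟩⟩ := hcon
  have n1 : a1 ≠ 0 := by rintro rfl; exact e1 (g0 g)
  have n2 : a2 ≠ 0 := by rintro rfl; exact e2 (g0 h)
  have n3 : a3 ≠ 0 := by rintro rfl; exact e3 (by rw [g0, g0])
  have hk' : vec 6 k ≠ 0 := vec_ne (n := 6) (by simpa using hk) k0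
  have L : ∀ a, a < 16 → a < 2 ^ 4 := fun a h => by simpa using h
  -- two-element version
  have two : ∀ b1 b2, b1 < 16 → b2 < 16 → b1 ≠ 0 → b2 ≠ 0 → b1 ≠ b2 → Zb M b1 k = true →
      Zb M b2 k = true →
      (gen M g b1 k = (false, false) ∧ gen M g b2 k = (false, false)) ∨
      (gen M h b1 k = (false, false) ∧ gen M h b2 k = (false, false)) ∨
      (gen M g b1 k = gen M h b1 k ∧ gen M g b2 k = gen M h b2 k) := by
    intro b1 b2 m1 m2 o1 o2 o12 y1 y2
    have := theta_k M hM (gr g) (gc g) (gr h) (gc h) hk' (Zb_ZZ y1) (Zb_ZZ y2)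
      (vec_ne (L _ m1) o1) (vec_ne (L _ m2) o2) (fun e => o12 (vec_inj (L _ m1) (L _ m2) e))
    simp only [gen_LL]
    rcases this with ⟨p, q⟩ | ⟨p, q⟩ | ⟨p, q⟩
    · left; rw [p, q, ub_zero]; exact ⟨rfl, rfl⟩
    · right; left; rw [p, q, ub_zero]; exact ⟨rfl, rfl⟩
    · right; right; rw [p, q]; exact ⟨rfl, rfl⟩
  have one : ∀ b1, b1 < 16 → b1 ≠ 0 → Zb M b1 k = true → _ := fun b1 m1 o1 y1 =>
    gen_col hM m1 o1 hk k0 y1 g h
  by_cases h12 : a1 = a2
  · subst h12
    rcases one a1 l1 n1 z1 with p | p | p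
    · exact e1 p
    · exact e2 p
    · by_cases h13 : a1 = a3
      · subst h13; exact e3 p
      · rcases two a1 a3 l1 l3 n1 n3 h13 z1 z3 with ⟨q, _⟩ | ⟨q, _⟩ | ⟨_, q⟩
        · exact e1 q
        · exact e2 q
        · exact e3 q
  · rcases two a1 a2 l1 l2 n1 n2 h12 z1 z2 with ⟨q, _⟩ | ⟨_, q⟩ | ⟨q, q'⟩
    · exact e1 q
    · exact e2 q
    · by_cases h13 : a1 = a3
      · subst h13; exact e3 q
      · by_cases h23 : a2 = a3
        · subst h23; exact e3 q'
        · rcases two a1 a3 l1 l3 n1 n3 h13 z1 z3 with ⟨r, _⟩ | ⟨r, _⟩ | ⟨_, r⟩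
          · exact e1 r
          · exact e1 (q.trans r)
          · exact e3 r

end Pool.Agent.K7.H78.CDM
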