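import Pool.Agent.K7.H78.CDM.Facts3

namespace Pool.Agent.K7.H78.CDM

open Finset

variable {M : Fin 4 → Fin 6 → G}

lemma fn_false (f : Fin 3) : fn f (false, false) = false := by fin_cases f <;> rfl

lemma fn_xor (f : Fin 3) (u v : Bool × Bool) :
    fn f (xor u.1 v.1, xor u.2 v.2) = xor (fn f u) (fn f v) := by
  revert f u v; decide

lemma DU_xor_right (a k k' : ℕ) : DU M a (k ^^^ k') =
    (xor (DU M a k).1 (DU M a k').1, xor (DU M a k).2 (DU M a k').2) := by
  simp only [DU, bb_xor_right]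

lemma be_expand (B : Fin 4 → Fin 6 → Z2) (a : Fin 4 → Z2) (k : Fin 6 → Z2) :
    be B a k = ∑ j, k j * be B a (Pi.single j 1) := by
  have h : ∀ j : Fin 6, be B a (Pi.single j 1) = ∑ i, a i * B i j := by
    intro j
    simp only [be, Pi.single_apply]
    refine sum_congr rfl fun i _ => ?_
    rw [sum_eq_single j]
    · simp
    · intro b _ hb; simp [hb]
    · simp
  rw [be, sum_comm]
  refine sum_congr rfl fun j _ => ?_
  rw [h, mul_sum]
  exact sum_congr rfl fun i _ => by ring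

/-- the three functionals applied to `D` -/
def fz (M : Fin 4 → Fin 6 → G) (f : Fin 3) (a : Fin 4 → Z2) (k : Fin 6 → Z2) : Z2 :=
  if f = 0 then be (pl M 0) a k else if f = 1 then be (pl M 1) a k
  else be (pl M 0) a k + be (pl M 1) a k

lemma fz_expand (f : Fin 3) (a : Fin 4 → Z2) (k : Fin 6 → Z2) :
    fz M f a k = ∑ j, k j * fz M f a (Pi.single j 1) := by
  unfold fz
  split_ifs
  · exact be_expand _ _ _
  · exact be_expand _ _ _
  · rw [be_expand, be_expand (pl M 1), ← sum_add_distrib]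
    exact sum_congr rfl fun j _ => by ring

lemma fn_DU (f : Fin 3) (a k : ℕ) : fn f (DU M a k) = decide (fz M f (vec 4 a) (vec 6 k) = 1) := by
  unfold DU bb fz
  generalize be (pl M 0) (vec 4 a) (vec 6 k) = x
  generalize be (pl M 1) (vec 4 a) (vec 6 k) = y
  revert f x y; decide

/-- fact onto -/
theorem onto_mask (hM : HS M) {a : ℕ} (ha : a < 16) (a0 : a ≠ 0) (f : Fin 3) :
    ∃ j : Fin 6, fn f (DU M a (2 ^ (j : ℕ))) = true := by
  by_contra hcon
  push_neg at hcon
  have hcon' : ∀ j : Fin 6, fz M f (vec 4 a) (Pi.single j 1) = 0 := fun j => by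
    have := hcon j
    rw [fn_DU, vec_two_pow] at this
    rcases z2_cases (fz M f (vec 4 a) (Pi.single j 1)) with h | h
    · exact h
    · rw [h] at this; exact absurd (by decide) this
  have va : vec 4 a ≠ 0 := vec_ne (n := 4) (by simpa using ha) a0
  have all : ∀ k : Fin 6 → Z2, fz M f (vec 4 a) k = 0 := by
    intro k
    rw [fz_expand]
    exact sum_eq_zero fun j _ => by rw [hcon' j, mul_zero]
  have hf : ∀ f : Fin 3, f = 0 ∨ f = 1 ∨ f = 2 := by decide
  rcases hf f with rfl | rfl | rfl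
  · obtain ⟨k, hk⟩ := (T_bij hM va).2 ((1, 0, 0, 0) : G)
    have h := (T_pl (M := M) (vec 4 a) k).1
    simp only at hk
    rw [hk] at h
    have e : be (pl M 0) (vec 4 a) k = 0 := all k
    rw [e] at h
    revert h; decide
  · obtain ⟨k, hk⟩ := (T_bij hM va).2 ((0, 1, 0, 0) : G)
    have h := (T_pl (M := M) (vec 4 a) k).2.1
    simp only at hk
    rw [hk] at h
    have e : be (pl M 1) (vec 4 a) k = 0 := all k
    rw [e] at h
    revert h; decide
  · obtain ⟨k, hk⟩ := (T_bij hM va).2 ((1, 0, 0, 0) : G)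
    have h := (T_pl (M := M) (vec 4 a) k).1
    have h' := (T_pl (M := M) (vec 4 a) k).2.1
    simp only at hk
    rw [hk] at h h'
    have e : be (pl M 0) (vec 4 a) k + be (pl M 1) (vec 4 a) k = 0 := all k
    rw [← h, ← h'] at e
    revert e; decide

/-- the predicate `P_f(a,k)` -/
def PP (M : Fin 4 → Fin 6 → G) (f : Fin 3) (a k : ℕ) : Prop :=
  (∀ i : Fin 4, a.testBit i = true → fn f (DU M (2 ^ (i : ℕ)) k) = false) ∧
  (∀ j : Fin 6, k.testBit j = true → fn f (DU M a (2 ^ (j : ℕ))) = false)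

lemma PP_of_gen {f : Fin 3} {a k : ℕ} (h : ∀ g, fn f (gen M g a k) = false) : PP M f a k := by
  refine ⟨fun i hi => ?_, fun j hj => ?_⟩
  · have := h (.inl i); simpa [gen, hi] using this
  · have := h (.inr j); simpa [gen, hj] using this

/-- every pair of `K` has a functional -/
theorem P_mask (hM : HS M) {a k : ℕ} (ha : a < 16) (a0 : a ≠ 0) (hk : k < 64) (k0 : k ≠ 0)
    (hz : Zb M a k = true) : ∃ f, PP M f a k := by
  by_cases h : ∀ g, gen M g a k = (false, false)
  · exact ⟨0, PP_of_gen fun g => by rw [h g]; rfl⟩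
  · push_neg at h
    obtain ⟨g0, hg0⟩ := h
    have hu : ∀ u : Bool × Bool, u ≠ (false, false) → ∃ f : Fin 3, fn f u = false := by decide
    obtain ⟨f, hf⟩ := hu _ hg0
    refine ⟨f, PP_of_gen fun g => ?_⟩
    rcases gen_col hM ha a0 hk k0 hz g g0 with e | e | e
    · rw [e, fn_false]
    · exact absurd e hg0
    · rw [e, hf]

/-- layer form -/
theorem layer_mask (hM : HS M) {a : ℕ} (ha : a < 16) (a0 : a ≠ 0) (f : Fin 3) :
    ∃ k < 64, k ≠ 0 ∧ Zb M a k = true ∧ PP M f a k := by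
  obtain ⟨k1, k2, l1, l2, n1, n2, n12, hK⟩ := K_mask hM ha a0
  have z1 : Zb M a k1 = true := (hK k1 l1).2 (by simp)
  have z2 : Zb M a k2 = true := (hK k2 l2).2 (by simp)
  have l3 : k1 ^^^ k2 < 64 := by
    have := Nat.xor_lt_two_pow (n := 6) (by simpa using l1) (by simpa using l2)
    simpa using this
  have n3 : k1 ^^^ k2 ≠ 0 := by
    intro h; exact n12 (Nat.xor_eq_zero_iff.1 h)
  by_cases h : ∀ g, ∀ k < 64, Zb M a k = true → gen M g a k = (false, false)
  · exact ⟨k1, l1, n1, z1, PP_of_gen fun g => by rw [h g k1 l1 z1, fn_false]⟩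
  · push_neg at h
    obtain ⟨g0, k', l', z', hg0⟩ := h
    have key : ∀ k < 64, Zb M a k = true → fn f (gen M g0 a k) = false → PP M f a k := by
      intro k hk hz hf
      refine PP_of_gen fun g => ?_
      rcases gen_a hM ha a0 g g0 with e | e | e
      · rw [e k hk hz, fn_false]
      · exact absurd (e k' l' z') hg0
      · rw [e k hk hz, hf]
    cases c1 : fn f (gen M g0 a k1)
    · exact ⟨k1, l1, n1, z1, key k1 l1 z1 c1⟩
    · cases c2 : fn f (gen M g0 a k2)
      · exact ⟨k2, l2, n2, z2, key k2 l2 z2 c2⟩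
      · refine ⟨k1 ^^^ k2, l3, n3, Zb_xor_right z1 z2, key _ l3 (Zb_xor_right z1 z2) ?_⟩
        rw [gen_xor_right, fn_xor, c1, c2]; rfl

/-- a nonzero linear condition always meets `K_a` -/
theorem hyper_mask (hM : HS M) {a : ℕ} (ha : a < 16) (a0 : a ≠ 0) (φ : ℕ → Bool)
    (hφ : ∀ x y, φ (x ^^^ y) = xor (φ x) (φ y)) :
    ∃ k < 64, k ≠ 0 ∧ Zb M a k = true ∧ φ k = false := by
  obtain ⟨k1, k2, l1, l2, n1, n2, n12, hK⟩ := K_mask hM ha a0
  have z1 : Zb M a k1 = true := (hK k1 l1).2 (by simp)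
  have z2 : Zb M a k2 = true := (hK k2 l2).2 (by simp)
  have l3 : k1 ^^^ k2 < 64 := by
    have := Nat.xor_lt_two_pow (n := 6) (by simpa using l1) (by simpa using l2)
    simpa using this
  have n3 : k1 ^^^ k2 ≠ 0 := by
    intro h; exact n12 (Nat.xor_eq_zero_iff.1 h)
  cases c1 : φ k1
  · exact ⟨k1, l1, n1, z1, c1⟩
  · cases c2 : φ k2
    · exact ⟨k2, l2, n2, z2, c2⟩
    · exact ⟨k1 ^^^ k2, l3, n3, Zb_xor_right z1 z2, by rw [hφ, c1, c2]; rfl⟩

end Pool.Agent.K7.H78.CDM
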