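import Pool.Agent.K7.H78.CDM.Facts4
import Pool.Agent.K7.H57.CDM.Enc

namespace Pool.Agent.K7.H78.CDM

open Finset

/-- the `D` of the encoding -/
def Dn (M : Fin 4 → Fin 6 → G) (f a k : ℕ) : Bool :=
  if f = 0 then bb M 0 a k else if f = 1 then bb M 1 a k else xor (bb M 0 a k) (bb M 1 a k)

variable {M : Fin 4 → Fin 6 → G}

lemma Dn_fn (f : Fin 3) (a k : ℕ) : Dn M f a k = fn f (DU M a k) := by
  fin_cases f <;> rfl

lemma PP_iff (f : Fin 3) (a k : ℕ) :
    Pool.Agent.K7.H57.CDM.PP (Dn M) f a k = true ↔ PP M f a k := by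
  unfold Pool.Agent.K7.H57.CDM.PP PP
  simp only [Bool.and_eq_true, List.all_eq_true, List.mem_range, Bool.or_eq_true,
    Bool.not_eq_true', Dn_fn]
  constructor
  · rintro ⟨h1, h2⟩
    refine ⟨fun i hi => ?_, fun j hj => ?_⟩
    · rcases h1 i i.2 with h | h
      · rw [h] at hi; exact absurd hi (by decide)
      · exact h
    · rcases h2 j j.2 with h | h
      · rw [h] at hj; exact absurd hj (by decide)
      · exact h
  · rintro ⟨h1, h2⟩
    refine ⟨fun i hi => ?_, fun j hj => ?_⟩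
    · cases h : a.testBit i
      · left; rfl
      · right; exact h1 ⟨i, hi⟩ h
    · cases h : k.testBit j
      · left; rfl
      · right; exact h2 ⟨j, hj⟩ h

lemma par_xor (h x y : ℕ) : Pool.Agent.K7.H57.CDM.par ((x ^^^ y) &&& h) =
    xor (Pool.Agent.K7.H57.CDM.par (x &&& h)) (Pool.Agent.K7.H57.CDM.par (y &&& h)) := by
  unfold Pool.Agent.K7.H57.CDM.par
  simp only [Nat.testBit_and, Nat.testBit_xor, Bool.and_xor_distrib_right]
  simp only [Bool.xor_assoc, Bool.xor_comm, Bool.xor_left_comm]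

theorem facts (hM : HS M) : Pool.Agent.K7.H57.CDM.Facts (Dn M) (Zb M) where
  addk := by
    intro f a k k' _ _ _ _
    unfold Dn
    simp only [bb_xor_right]
    split_ifs
    · rfl
    · rfl
    · generalize bb M 0 a k = x; generalize bb M 1 a k = y; generalize bb M 0 a k' = z
      generalize bb M 1 a k' = w
      revert x y z w; decide
  adda := by
    intro f a a' k _ _ _ _
    unfold Dn
    simp only [bb_xor_left]
    split_ifs
    · rfl
    · rfl
    · generalize bb M 0 a k = x; generalize bb M 1 a k = y; generalize bb M 0 a' k = z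
      generalize bb M 1 a' k = w
      revert x y z w; decide
  third := by intro a k _ _; rfl
  zd := by
    intro f a k _ _ _ _ _ hz
    unfold Dn
    rw [Zb_D hz 0, Zb_D hz 1]
    split_ifs <;> rfl
  zk := by intro a k k' _ _ _ _ _ _ _ h h'; exact Zb_xor_right h h'
  za := by intro k a a' _ _ _ _ _ _ _ h h'; exact Zb_xor_left h h'
  ind := by
    rintro k a b c k0 hk a0 ha b0 hb c0 hc ab ac bc abc ⟨za, zb, zc⟩
    exact no_three_mask hM hk (by omega) ha hb hc (by omega) (by omega) (by omega) ab ac bc abc za zb zc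
  hyp := by
    intro a h a0 ha _ _
    obtain ⟨k, hk, k0, hz, hp⟩ := hyper_mask hM ha (by omega)
      (fun k => Pool.Agent.K7.H57.CDM.par (k &&& h)) (fun x y => par_xor h x y)
    exact ⟨k, by omega, hk, hp, hz⟩
  col := by
    intro a k a0 ha k0 hk hz
    obtain ⟨f, hf⟩ := P_mask hM ha (by omega) hk (by omega) hz
    have := (PP_iff f a k).2 hf
    have hf3 : ∀ f : Fin 3, f = 0 ∨ f = 1 ∨ f = 2 := by decide
    rcases hf3 f with rfl | rfl | rfl
    · exact Or.inl this
    · exact Or.inr (Or.inl this)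
    · exact Or.inr (Or.inr this)
  lay := by
    intro f a hf a0 ha
    obtain ⟨k, hk, k0, hz, hp⟩ := layer_mask hM ha (by omega) ⟨f, hf⟩
    exact ⟨k, by omega, hk, hz, (PP_iff ⟨f, hf⟩ a k).2 hp⟩
  onto := by
    intro f a hf a0 ha
    obtain ⟨j, hj⟩ := onto_mask hM ha (by omega) ⟨f, hf⟩
    exact ⟨j, j.2, by rw [← hj]; exact Dn_fn ⟨f, hf⟩ a (2 ^ (j : ℕ))⟩

end Pool.Agent.K7.H78.CDM
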