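import Pool.Agent.K7.H78.CDM.Facts5

/-! Invariance and the dichotomy at `a = 15`. -/

namespace Pool.Agent.K7.H78.CDM

open Finset

variable {M : Fin 4 → Fin 6 → G}

/-- permuted rows -/
def rowP (σ : Equiv.Perm (Fin 4)) (M : Fin 4 → Fin 6 → G) : Fin 4 → Fin 6 → G := fun i j => M (σ i) j
/-- permuted columns -/
def colP (τ : Equiv.Perm (Fin 6)) (M : Fin 4 → Fin 6 → G) : Fin 4 → Fin 6 → G := fun i j => M i (τ j)
/-- automorphism -/
def mapP (φ : G ≃+ G) (M : Fin 4 → Fin 6 → G) : Fin 4 → Fin 6 → G := fun i j => φ (M i j)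

theorem HS_row (hM : HS M) (σ : Equiv.Perm (Fin 4)) : HS (rowP σ M) := by
  intro α κ hα hκ a0 k0
  have e : T (rowP σ M) α κ = T M (α ∘ σ.symm) κ := by
    unfold T rowP
    rw [← Equiv.sum_comp σ (fun i => ∑ j, ((α ∘ σ.symm) i * κ j) • M i j)]
    refine sum_congr rfl fun i _ => sum_congr rfl fun j _ => ?_
    simp
  rw [e]
  refine hM _ _ (fun i => hα _) hκ ?_ k0
  intro h; apply a0; funext i
  have := congrFun h (σ i)
  simpa using this

theorem HS_col (hM : HS M) (τ : Equiv.Perm (Fin 6)) : HS (colP τ M) := by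
  intro α κ hα hκ a0 k0
  have e : T (colP τ M) α κ = T M α (κ ∘ τ.symm) := by
    unfold T colP
    refine sum_congr rfl fun i _ => ?_
    rw [← Equiv.sum_comp τ (fun j => (α i * (κ ∘ τ.symm) j) • M i j)]
    refine sum_congr rfl fun j _ => ?_
    simp
  rw [e]
  refine hM _ _ hα (fun i => hκ _) a0 ?_
  intro h; apply k0; funext i
  have := congrFun h (τ i)
  simpa using this

theorem HS_map (hM : HS M) (φ : G ≃+ G) : HS (mapP φ M) := by
  intro α κ hα hκ a0 k0
  have e : T (mapP φ M) α κ = φ (T M α κ) := by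
    simp only [T, mapP, map_sum, map_zsmul]
  rw [e]
  intro h
  exact hM α κ hα hκ a0 k0 (by simpa using h)

lemma be_rowP (t : Fin 4) (σ : Equiv.Perm (Fin 4)) (a : Fin 4 → Z2) (k : Fin 6 → Z2) :
    be (pl (rowP σ M) t) a k = be (pl M t) (a ∘ σ.symm) k := by
  unfold be
  rw [← Equiv.sum_comp σ (fun i => ∑ j, (a ∘ σ.symm) i * k j * pl M t i j)]
  refine sum_congr rfl fun i _ => sum_congr rfl fun j _ => ?_
  simp only [Function.comp, Equiv.symm_apply_apply]
  congr 1
  fin_cases t <;> rfl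

lemma be_colP (t : Fin 4) (τ : Equiv.Perm (Fin 6)) (a : Fin 4 → Z2) (k : Fin 6 → Z2) :
    be (pl (colP τ M) t) a k = be (pl M t) a (k ∘ τ.symm) := by
  unfold be
  refine sum_congr rfl fun i _ => ?_
  rw [← Equiv.sum_comp τ (fun j => a i * (k ∘ τ.symm) j * pl M t i j)]
  refine sum_congr rfl fun j _ => ?_
  simp only [Function.comp, Equiv.symm_apply_apply]
  congr 1
  fin_cases t <;> rfl

lemma bb_rowP (t : Fin 4) (σ : Equiv.Perm (Fin 4)) {a a' : ℕ} (k : ℕ)
    (h : ∀ i : Fin 4, a'.testBit (σ i) = a.testBit i) :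
    bb (rowP σ M) t a k = bb M t a' k := by
  unfold bb
  rw [be_rowP]
  have : vec 4 a ∘ σ.symm = vec 4 a' := by
    funext i
    simp only [Function.comp, vec]
    have := h (σ.symm i)
    rw [Equiv.apply_symm_apply] at this
    rw [this]
  rw [this]

lemma bb_colP (t : Fin 4) (τ : Equiv.Perm (Fin 6)) (a : ℕ) {k k' : ℕ}
    (h : ∀ i : Fin 6, k'.testBit (τ i) = k.testBit i) :
    bb (colP τ M) t a k = bb M t a k' := by
  unfold bb
  rw [be_colP]
  have : vec 6 k ∘ τ.symm = vec 6 k' := by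
    funext i
    simp only [Function.comp, vec]
    have := h (τ.symm i)
    rw [Equiv.apply_symm_apply] at this
    rw [this]
  rw [this]

lemma Zb_eq (a k : ℕ) : Zb M a k = (!(bb M 0 a k) && !(bb M 1 a k) && !(bb M 2 a k) && !(bb M 3 a k)) := by
  rw [Bool.eq_iff_iff, Zb_iff]
  simp only [Bool.and_eq_true, Bool.not_eq_true']
  constructor
  · intro h; exact ⟨⟨⟨h 0, h 1⟩, h 2⟩, h 3⟩
  · rintro ⟨⟨⟨h0, h1⟩, h2⟩, h3⟩ t
    fin_cases t
    · exact h0
    · exact h1
    · exact h2
    · exact h3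

lemma Zb_rowP (σ : Equiv.Perm (Fin 4)) {a a' : ℕ} (k : ℕ)
    (h : ∀ i : Fin 4, a'.testBit (σ i) = a.testBit i) :
    Zb (rowP σ M) a k = Zb M a' k := by
  simp only [Zb_eq, bb_rowP _ σ k h]

lemma Zb_colP (τ : Equiv.Perm (Fin 6)) (a : ℕ) {k k' : ℕ}
    (h : ∀ i : Fin 6, k'.testBit (τ i) = k.testBit i) :
    Zb (colP τ M) a k = Zb M a k' := by
  simp only [Zb_eq, bb_colP _ τ a h]

/-- swap of the first two coordinates -/
def sw : G ≃+ G where
  toFun g := (g.2.1, g.1, g.2.2)
  invFun g := (g.2.1, g.1, g.2.2)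
  left_inv g := rfl
  right_inv g := rfl
  map_add' g h := rfl

/-- `(x, y) ↦ (x + y, y)` -/
def sh : G ≃+ G where
  toFun g := (g.1 + g.2.1, g.2.1, g.2.2)
  invFun g := (g.1 - g.2.1, g.2.1, g.2.2)
  left_inv g := by ext <;> simp
  right_inv g := by ext <;> simp
  map_add' g h := by
    ext
    · simp only [Prod.fst_add, Prod.snd_add]; abel_nf
    · rfl
    · rfl
    · rfl

lemma DU_sw (a k : ℕ) : DU (mapP sw M) a k = ((DU M a k).2, (DU M a k).1) := rfl

lemma DU_sh (a k : ℕ) : DU (mapP sh M) a k = (xor (DU M a k).1 (DU M a k).2, (DU M a k).2) := by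
  unfold DU bb
  have e1 : be (pl (mapP sh M) 1) (vec 4 a) (vec 6 k) = be (pl M 1) (vec 4 a) (vec 6 k) := rfl
  have e0 : be (pl (mapP sh M) 0) (vec 4 a) (vec 6 k) = be (pl M 0) (vec 4 a) (vec 6 k) +
      be (pl M 1) (vec 4 a) (vec 6 k) := by
    unfold be
    simp only [← sum_add_distrib]
    refine sum_congr rfl fun i _ => sum_congr rfl fun j _ => ?_
    rw [← mul_add]
    congr 1
    exact p2_add _ _
  rw [e0, e1]
  generalize be (pl M 0) (vec 4 a) (vec 6 k) = x
  generalize be (pl M 1) (vec 4 a) (vec 6 k) = y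
  revert x y; decide

lemma Zb_sw (a k : ℕ) : Zb (mapP sw M) a k = Zb M a k := by
  simp only [Zb_eq]
  have h0 : bb (mapP sw M) 0 a k = bb M 1 a k := rfl
  have h1 : bb (mapP sw M) 1 a k = bb M 0 a k := rfl
  have h2 : bb (mapP sw M) 2 a k = bb M 2 a k := rfl
  have h3 : bb (mapP sw M) 3 a k = bb M 3 a k := rfl
  rw [h0, h1, h2, h3]
  cases bb M 0 a k <;> cases bb M 1 a k <;> rfl

lemma Zb_sh (a k : ℕ) : Zb (mapP sh M) a k = Zb M a k := by
  simp only [Zb_eq]
  have h := DU_sh (M := M) a k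
  simp only [DU, Prod.mk.injEq] at h
  have h2 : bb (mapP sh M) 2 a k = bb M 2 a k := rfl
  have h3 : bb (mapP sh M) 3 a k = bb M 3 a k := rfl
  rw [h.1, h.2, h2, h3]
  cases bb M 0 a k <;> cases bb M 1 a k <;> rfl

/-- linear maps of `U` -/
def act : Fin 6 → Bool × Bool → Bool × Bool
  | 0, u => u
  | 1, u => (u.2, u.1)
  | 2, u => (xor u.1 u.2, u.2)
  | 3, u => (u.2, xor u.1 u.2)
  | 4, u => (xor u.1 u.2, u.1)
  | 5, u => (u.1, xor u.1 u.2)

theorem act_exists (hM : HS M) (n : Fin 6) : ∃ M', HS M' ∧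
    (∀ a k, DU M' a k = act n (DU M a k)) ∧ ∀ a k, Zb M' a k = Zb M a k := by
  have hn : ∀ n : Fin 6, n = 0 ∨ n = 1 ∨ n = 2 ∨ n = 3 ∨ n = 4 ∨ n = 5 := by decide
  rcases hn n with rfl | rfl | rfl | rfl | rfl | rfl
  · exact ⟨M, hM, fun _ _ => rfl, fun _ _ => rfl⟩
  · exact ⟨mapP sw M, HS_map hM _, fun a k => DU_sw a k, Zb_sw⟩
  · exact ⟨mapP sh M, HS_map hM _, fun a k => DU_sh a k, Zb_sh⟩
  · refine ⟨mapP sw (mapP sh M), HS_map (HS_map hM _) _, fun a k => ?_, fun a k => ?_⟩
    · rw [DU_sw, DU_sh]; rfl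
    · rw [Zb_sw, Zb_sh]
  · refine ⟨mapP sh (mapP sw M), HS_map (HS_map hM _) _, fun a k => ?_, fun a k => ?_⟩
    · rw [DU_sh, DU_sw]
      generalize DU M a k = u
      revert u; decide
    · rw [Zb_sh, Zb_sw]
  · refine ⟨mapP sw (mapP sh (mapP sw M)), HS_map (HS_map (HS_map hM _) _) _, fun a k => ?_,
      fun a k => ?_⟩
    · rw [DU_sw, DU_sh, DU_sw]
      generalize DU M a k = u
      revert u; decide
    · rw [Zb_sw, Zb_sh, Zb_sw]

lemma act_two : ∀ u v : Bool × Bool, u ≠ (false, false) → v ≠ (false, false) → u ≠ v →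
    ∃ n, act n u = (true, false) ∧ act n v = (false, true) := by decide

lemma act_one : ∀ u : Bool × Bool, u ≠ (false, false) → ∃ n, act n u = (true, false) := by decide

lemma act_zero : ∀ n, act n (false, false) = (false, false) := by decide

/-- the dichotomy -/
theorem dich (hM : HS M) {a : ℕ} (ha : a < 16) (a0 : a ≠ 0) :
    ∃ k1 k2, k1 < 64 ∧ k2 < 64 ∧ k1 ≠ 0 ∧ k2 ≠ 0 ∧ k1 ≠ k2 ∧ Zb M a k1 = true ∧ Zb M a k2 = true ∧
      ((∀ g, gen M g a k2 = (false, false)) ∧
        (∃ u, u ≠ (false, false) ∧ ∀ g, gen M g a k1 = (false, false) ∨ gen M g a k1 = u) ∨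
      (∃ u1 u2, u1 ≠ (false, false) ∧ u2 ≠ (false, false) ∧ u1 ≠ u2 ∧
        (∀ i : Fin 4, (gen M (.inl i) a k1 = (false, false) ∧ gen M (.inl i) a k2 = (false, false)) ∨
          (gen M (.inl i) a k1 = u1 ∧ gen M (.inl i) a k2 = u2)) ∧
        (∀ j : Fin 6, gen M (.inr j) a k1 = (false, false) ∧ gen M (.inr j) a k2 = (false, false)) ∧
        (∃ i : Fin 4, gen M (.inl i) a k1 = u1 ∧ gen M (.inl i) a k2 = u2))) := by
  obtain ⟨k1, k2, l1, l2, n1, n2, n12, hK⟩ := K_mask hM ha a0
  have z1 : Zb M a k1 = true := (hK k1 l1).2 (by simp)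
  have z2 : Zb M a k2 = true := (hK k2 l2).2 (by simp)
  have l3 : k1 ^^^ k2 < 64 := by
    have := Nat.xor_lt_two_pow (n := 6) (by simpa using l1) (by simpa using l2)
    simpa using this
  have n3 : k1 ^^^ k2 ≠ 0 := by
    intro h; exact n12 (Nat.xor_eq_zero_iff.1 h)
  have z3 : Zb M a (k1 ^^^ k2) = true := Zb_xor_right z1 z2
  by_cases h : ∀ g, ∀ k < 64, Zb M a k = true → gen M g a k = (false, false)
  · exact ⟨k1, k2, l1, l2, n1, n2, n12, z1, z2, Or.inl ⟨fun g => h g k2 l2 z2,
      (true, false), by decide, fun g => Or.inl (h g k1 l1 z1)⟩⟩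
  · push Not at h
    obtain ⟨g0, k', l', z', hg0⟩ := h
    have all : ∀ g, (∀ k < 64, Zb M a k = true → gen M g a k = (false, false)) ∨
        (∀ k < 64, Zb M a k = true → gen M g a k = gen M g0 a k) := by
      intro g
      rcases gen_a hM ha a0 g g0 with e | e | e
      · exact Or.inl e
      · exact absurd (e k' l' z') hg0
      · exact Or.inr e
    -- type I from a zero `z` of `g0` and another element `w`
    have typeI : ∀ w z, w < 64 → z < 64 → w ≠ 0 → z ≠ 0 → w ≠ z → Zb M a w = true →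
        Zb M a z = true → gen M g0 a z = (false, false) → gen M g0 a w ≠ (false, false) →
        ∃ k1 k2, k1 < 64 ∧ k2 < 64 ∧ k1 ≠ 0 ∧ k2 ≠ 0 ∧ k1 ≠ k2 ∧ Zb M a k1 = true ∧
        Zb M a k2 = true ∧
      ((∀ g, gen M g a k2 = (false, false)) ∧
        (∃ u, u ≠ (false, false) ∧ ∀ g, gen M g a k1 = (false, false) ∨ gen M g a k1 = u) ∨
      (∃ u1 u2, u1 ≠ (false, false) ∧ u2 ≠ (false, false) ∧ u1 ≠ u2 ∧
        (∀ i : Fin 4, (gen M (.inl i) a k1 = (false, false) ∧ gen M (.inl i) a k2 = (false, false)) ∨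
          (gen M (.inl i) a k1 = u1 ∧ gen M (.inl i) a k2 = u2)) ∧
        (∀ j : Fin 6, gen M (.inr j) a k1 = (false, false) ∧ gen M (.inr j) a k2 = (false, false)) ∧
        (∃ i : Fin 4, gen M (.inl i) a k1 = u1 ∧ gen M (.inl i) a k2 = u2))) := by
      intro w z lw lz nw nz wz zw zz ez ew
      refine ⟨w, z, lw, lz, nw, nz, wz, zw, zz, Or.inl ⟨fun g => ?_, gen M g0 a w, ew, fun g => ?_⟩⟩
      · rcases all g with e | e
        · exact e z lz zz
        · rw [e z lz zz, ez]
      · rcases all g with e | e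
        · exact Or.inl (e w lw zw)
        · exact Or.inr (e w lw zw)
    by_cases c2 : gen M g0 a k2 = (false, false)
    · by_cases c1 : gen M g0 a k1 = (false, false)
      · exfalso; apply hg0
        have e3 : gen M g0 a (k1 ^^^ k2) = (false, false) := by rw [gen_xor_right, c1, c2]; rfl
        have e0 : gen M g0 a 0 = (false, false) := by
          have := gen_xor_right (M := M) g0 a 0 0
          rw [Nat.xor_self] at this
          rw [this]; simp
        rcases (hK k' l').1 z' with rfl | rfl | rfl | rfl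
        · exact e0
        · exact c1
        · exact c2
        · exact e3
      · exact typeI k1 k2 l1 l2 n1 n2 n12 z1 z2 c2 c1
    · by_cases c1 : gen M g0 a k1 = (false, false)
      · exact typeI k2 k1 l2 l1 n2 n1 (Ne.symm n12) z2 z1 c1 c2
      · by_cases c3 : gen M g0 a k1 = gen M g0 a k2
        · refine typeI k1 (k1 ^^^ k2) l1 l3 n1 n3 ?_ z1 z3 ?_ c1
          · intro h; apply n2
            have := congrArg (k1 ^^^ ·) h
            simp only [← Nat.xor_assoc, Nat.xor_self, Nat.zero_xor] at this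
            exact this.symm
          · rw [gen_xor_right, c3]; simp
        · -- type II
          have colz : ∀ j : Fin 6, gen M (.inr j) a k1 = (false, false) ∧
              gen M (.inr j) a k2 = (false, false) := by
            intro j
            rcases all (.inr j) with e | e
            · exact ⟨e k1 l1 z1, e k2 l2 z2⟩
            · exfalso
              have e1 := e k1 l1 z1
              have e2 := e k2 l2 z2
              apply c3
              rw [← e1, ← e2]
              simp only [gen]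
              have t1 : k1.testBit j = true := by
                by_contra hh
                have : gen M (.inr j) a k1 = (false, false) := by simp [gen, hh]
                exact c1 (by rw [← e1, this])
              have t2 : k2.testBit j = true := by
                by_contra hh
                have : gen M (.inr j) a k2 = (false, false) := by simp [gen, hh]
                exact c2 (by rw [← e2, this])
              rw [t1, t2]
          refine ⟨k1, k2, l1, l2, n1, n2, n12, z1, z2, Or.inr ⟨gen M g0 a k1, gen M g0 a k2, c1, c2,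
            c3, fun i => ?_, colz, ?_⟩⟩
          · rcases all (.inl i) with e | e
            · exact Or.inl ⟨e k1 l1 z1, e k2 l2 z2⟩
            · exact Or.inr ⟨e k1 l1 z1, e k2 l2 z2⟩
          · cases g0 with
            | inl i => exact ⟨i, rfl, rfl⟩
            | inr j => exact absurd (colz j).1 c1

end Pool.Agent.K7.H78.CDM
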