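import Pool.Agent.K7.H78.CDM.NF

/-! The lexicographically minimal choice. -/

namespace Pool.Agent.K7.H78.CDM

open Finset
open Pool.Agent.K7.H57.CDM (Cs cls k1 k2 units lexs cases lexCol lexRow lexG lexle dval vD vZ ps ng lit lv val)

variable {M : Fin 4 → Fin 6 → G}

/-- number of a list of bits -/
def cN : List Bool → ℕ
  | [] => 0
  | b :: l => b.toNat * 2 ^ l.length + cN l

lemma cN_lt (l : List Bool) : cN l < 2 ^ l.length := by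
  induction l with
  | nil => simp [cN]
  | cons b l ih =>
    simp only [cN, List.length_cons, pow_succ]
    cases b <;> simp <;> omega

lemma lexle_iff (D : ℕ → ℕ → ℕ → Bool) (L : List (ℕ × ℕ)) : lexle D L = true ↔
    cN (L.map fun p => dval D p.1) ≤ cN (L.map fun p => dval D p.2) := by
  induction L with
  | nil => simp [lexle, cN]
  | cons p L ih =>
    have h1 := cN_lt (L.map fun p => dval D p.1)
    have h2 := cN_lt (L.map fun p => dval D p.2)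
    simp only [List.length_map] at h1 h2
    simp only [lexle, List.map_cons, cN, List.length_map]
    cases hx : dval D p.1 <;> cases hy : dval D p.2
    · simp [ih]
    · simp; omega
    · simp; omega
    · simp [ih]

/-- entries of `D` as numbers -/
def xv (M : Fin 4 → Fin 6 → G) (i : Fin 4) (j : Fin 6) : ℕ :=
  2 * (bb M 0 (2 ^ (i : ℕ)) (2 ^ (j : ℕ))).toNat + (bb M 1 (2 ^ (i : ℕ)) (2 ^ (j : ℕ))).toNat

def rw (x : Fin 6 → ℕ) : ℕ := 1024 * x 0 + 256 * x 1 + 64 * x 2 + 16 * x 3 + 4 * x 4 + x 5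

def cX (x : Fin 4 → Fin 6 → ℕ) : ℕ :=
  68719476736 * rw (x 0) + 16777216 * rw (x 1) + 4096 * rw (x 2) + rw (x 3)

lemma xv_lt (i j) : xv M i j < 4 := by
  unfold xv
  cases bb M 0 (2 ^ (i : ℕ)) (2 ^ (j : ℕ)) <;> cases bb M 1 (2 ^ (i : ℕ)) (2 ^ (j : ℕ)) <;> decide

lemma rw_lt {x : Fin 6 → ℕ} (h : ∀ j, x j < 4) : rw x < 4096 := by
  unfold rw
  have := h 0; have := h 1; have := h 2; have := h 3; have := h 4; have := h 5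
  omega

/-- four digits -/
lemma four {a0 a1 a2 a3 b0 b1 b2 b3 : ℕ} (h1 : a1 < 4096) (h2 : a2 < 4096) (h3 : a3 < 4096)
    (g1 : b1 < 4096) (g2 : b2 < 4096) (g3 : b3 < 4096)
    (h : 68719476736 * a0 + 16777216 * a1 + 4096 * a2 + a3 ≤
      68719476736 * b0 + 16777216 * b1 + 4096 * b2 + b3) :
    a0 < b0 ∨ (a0 = b0 ∧ (a1 < b1 ∨ (a1 = b1 ∧ (a2 < b2 ∨ (a2 = b2 ∧ a3 ≤ b3))))) := by
  omega

lemma bb_col_swap (t : Fin 4) (τ : Equiv.Perm (Fin 6)) (a : ℕ) (j : Fin 6) :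
    bb (colP τ M) t a (2 ^ (j : ℕ)) = bb M t a (2 ^ ((τ j : Fin 6) : ℕ)) := by
  apply bb_colP
  intro i
  simp only [Nat.testBit_two_pow]
  by_cases h : j = i
  · subst h; simp
  · have h1 : ¬ ((j : ℕ) = (i : ℕ)) := fun e => h (Fin.ext e)
    have h2 : ¬ ((τ j : ℕ) = (τ i : ℕ)) := fun e => h (τ.injective (Fin.ext e))
    simp [h1, h2]

lemma bb_row_swap (t : Fin 4) (σ : Equiv.Perm (Fin 4)) (i : Fin 4) (k : ℕ) :
    bb (rowP σ M) t (2 ^ (i : ℕ)) k = bb M t (2 ^ ((σ i : Fin 4) : ℕ)) k := by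
  apply bb_rowP
  intro i'
  simp only [Nat.testBit_two_pow]
  by_cases h : i = i'
  · subst h; simp
  · have h1 : ¬ ((i : ℕ) = (i' : ℕ)) := fun e => h (Fin.ext e)
    have h2 : ¬ ((σ i : ℕ) = (σ i' : ℕ)) := fun e => h (σ.injective (Fin.ext e))
    simp [h1, h2]

lemma bb_row_15 (t : Fin 4) (σ : Equiv.Perm (Fin 4)) (k : ℕ) :
    bb (rowP σ M) t 15 k = bb M t 15 k := by
  apply bb_rowP
  intro i
  have : ∀ i : Fin 4, Nat.testBit 15 i = true := by decide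
  rw [this, this]

lemma xv_col (τ : Equiv.Perm (Fin 6)) (i j) : xv (colP τ M) i j = xv M i (τ j) := by
  unfold xv; rw [bb_col_swap, bb_col_swap]

lemma xv_row (σ : Equiv.Perm (Fin 4)) (i j) : xv (rowP σ M) i j = xv M (σ i) j := by
  unfold xv; rw [bb_row_swap, bb_row_swap]

/-! ### invariance of the normal form -/

lemma Dn_col (τ : Equiv.Perm (Fin 6)) (f a : ℕ) {k k' : ℕ}
    (h : ∀ i : Fin 6, k'.testBit (τ i) = k.testBit i) : Dn (colP τ M) f a k = Dn M f a k' := by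
  unfold Dn; rw [bb_colP 0 τ a h, bb_colP 1 τ a h]

lemma Dn_col_pow (τ : Equiv.Perm (Fin 6)) (f a : ℕ) (j : Fin 6) :
    Dn (colP τ M) f a (2 ^ (j : ℕ)) = Dn M f a (2 ^ ((τ j : Fin 6) : ℕ)) := by
  unfold Dn; rw [bb_col_swap, bb_col_swap]

lemma Dn_row_pow (σ : Equiv.Perm (Fin 4)) (f : ℕ) (i : Fin 4) (k : ℕ) :
    Dn (rowP σ M) f (2 ^ (i : ℕ)) k = Dn M f (2 ^ ((σ i : Fin 4) : ℕ)) k := by
  unfold Dn; rw [bb_row_swap, bb_row_swap]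

lemma Dn_row_15 (σ : Equiv.Perm (Fin 4)) (f : ℕ) (k : ℕ) :
    Dn (rowP σ M) f 15 k = Dn M f 15 k := by
  unfold Dn; rw [bb_row_15, bb_row_15]

lemma NF_col {c : Cs} (h : NF c M) (τ : Equiv.Perm (Fin 6))
    (h1 : ∀ i : Fin 6, (k1 c).testBit (τ i) = (k1 c).testBit i)
    (h2 : ∀ i : Fin 6, (k2 c).testBit (τ i) = (k2 c).testBit i)
    (h3 : ∀ i : Fin 6, cls c (τ i) = cls c i) : NF c (colP τ M) where
  z1 := by rw [Zb_colP τ 15 h1]; exact h.z1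
  z2 := by rw [Zb_colP τ 15 h2]; exact h.z2
  d01 i hi := by rw [Dn_col τ 0 _ h1]; exact h.d01 i hi
  d11 i hi := by rw [Dn_col τ 1 _ h1]; exact h.d11 i hi
  d02 i hi := by rw [Dn_col τ 0 _ h2]; exact h.d02 i hi
  d12 i hi := by rw [Dn_col τ 1 _ h2]; exact h.d12 i hi
  c1 j hj hc := by
    have := Dn_col_pow (M := M) τ 1 15 ⟨j, hj⟩
    simp only at this
    rw [this]
    exact h.c1 _ (τ ⟨j, hj⟩).2 (by rw [h3 ⟨j, hj⟩]; exact hc)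
  c0 j hj hc hd := by
    have := Dn_col_pow (M := M) τ 0 15 ⟨j, hj⟩
    simp only at this
    rw [this]
    exact h.c0 _ (τ ⟨j, hj⟩).2 (by rw [h3 ⟨j, hj⟩]; exact hc) (by rw [h3 ⟨j, hj⟩]; exact hd)

lemma NF_row {c : Cs} (h : NF c M) (σ : Equiv.Perm (Fin 4))
    (h1 : ∀ i : Fin 4, c.y.testBit (σ i) = c.y.testBit i) : NF c (rowP σ M) where
  z1 := by
    rw [Zb_rowP σ (a' := 15) _ (by
      intro i
      have : ∀ i : Fin 4, Nat.testBit 15 i = true := by decide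
      rw [this, this])]; exact h.z1
  z2 := by
    rw [Zb_rowP σ (a' := 15) _ (by
      intro i
      have : ∀ i : Fin 4, Nat.testBit 15 i = true := by decide
      rw [this, this])]; exact h.z2
  d01 i hi := by
    have := Dn_row_pow (M := M) σ 0 ⟨i, hi⟩ (k1 c)
    simp only at this
    rw [this, h.d01 _ (σ ⟨i, hi⟩).2]; exact h1 ⟨i, hi⟩
  d11 i hi := by
    have := Dn_row_pow (M := M) σ 1 ⟨i, hi⟩ (k1 c)
    simp only at this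
    rw [this, h.d11 _ (σ ⟨i, hi⟩).2]
  d02 i hi := by
    have := Dn_row_pow (M := M) σ 0 ⟨i, hi⟩ (k2 c)
    simp only at this
    rw [this, h.d02 _ (σ ⟨i, hi⟩).2]
  d12 i hi := by
    have := Dn_row_pow (M := M) σ 1 ⟨i, hi⟩ (k2 c)
    simp only at this
    rw [this, h.d12 _ (σ ⟨i, hi⟩).2, h1 ⟨i, hi⟩]
  c1 j hj hc := by rw [Dn_row_15]; exact h.c1 j hj hc
  c0 j hj hc hd := by rw [Dn_row_15]; exact h.c0 j hj hc hd

lemma Dn_sh (a k : ℕ) : Dn (mapP sh M) 0 a k = xor (Dn M 0 a k) (Dn M 1 a k) ∧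
    Dn (mapP sh M) 1 a k = Dn M 1 a k := by
  have h := DU_sh (M := M) a k
  simp only [DU, Prod.mk.injEq] at h
  exact ⟨h.1, h.2⟩

lemma NF_sh {c : Cs} (h : NF c M) (ht : c.ty = false) : NF c (mapP sh M) where
  z1 := by rw [Zb_sh]; exact h.z1
  z2 := by rw [Zb_sh]; exact h.z2
  d01 i hi := by rw [(Dn_sh _ _).1, h.d01 i hi, h.d11 i hi]; simp
  d11 i hi := by rw [(Dn_sh _ _).2, h.d11 i hi]
  d02 i hi := by rw [(Dn_sh _ _).1, h.d02 i hi, h.d12 i hi, ht]; rfl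
  d12 i hi := by rw [(Dn_sh _ _).2, h.d12 i hi]
  c1 j hj hc := by rw [(Dn_sh _ _).2]; exact h.c1 j hj hc
  c0 j hj hc hd := by rw [(Dn_sh _ _).1, h.c1 j hj hc, h.c0 j hj hc hd]; rfl

/-- the minimal element -/
lemma exists_min {c : Cs} (h : ∃ M : Fin 4 → Fin 6 → G, HS M ∧ NF c M) :
    ∃ M : Fin 4 → Fin 6 → G, HS M ∧ NF c M ∧
      ∀ M' : Fin 4 → Fin 6 → G, HS M' → NF c M' → cX (xv M) ≤ cX (xv M') := by
  classical
  have h' : ∃ n, ∃ M : Fin 4 → Fin 6 → G, HS M ∧ NF c M ∧ cX (xv M) = n := by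
    obtain ⟨M, h1, h2⟩ := h; exact ⟨_, M, h1, h2, rfl⟩
  obtain ⟨M, h1, h2, h3⟩ := Nat.find_spec h'
  refine ⟨M, h1, h2, fun M' g1 g2 => ?_⟩
  rw [h3]
  exact Nat.find_min' h' ⟨M', g1, g2, rfl⟩

/-- column comparison from the minimality -/
def cc (x : Fin 4 → Fin 6 → ℕ) (j : Fin 6) : ℕ := 64 * x 0 j + 16 * x 1 j + 4 * x 2 j + x 3 j

lemma rw_swap (x : Fin 6 → ℕ) (j j' : Fin 6) (h : (j' : ℕ) = j + 1) :
    (x j = x j' → rw (x ∘ Equiv.swap j j') = rw x) ∧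
    (x j' < x j → rw (x ∘ Equiv.swap j j') < rw x) ∧
    (x j < x j' → rw x < rw (x ∘ Equiv.swap j j')) := by
  have hj : ∀ j j' : Fin 6, (j' : ℕ) = j + 1 → (j = 0 ∧ j' = 1) ∨ (j = 1 ∧ j' = 2) ∨
    (j = 2 ∧ j' = 3) ∨ (j = 3 ∧ j' = 4) ∨ (j = 4 ∧ j' = 5) := by decide
  rcases hj j j' h with ⟨rfl, rfl⟩ | ⟨rfl, rfl⟩ | ⟨rfl, rfl⟩ | ⟨rfl, rfl⟩ | ⟨rfl, rfl⟩ <;>
  · simp only [rw, Function.comp]
    simp only [Equiv.swap_apply_def]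
    simp (decide := true) only [if_true, if_false]
    refine ⟨?_, ?_, ?_⟩ <;> intro h <;> omega

lemma col_min {x : Fin 4 → Fin 6 → ℕ} (hx : ∀ i j, x i j < 4) (j j' : Fin 6)
    (hjj : (j' : ℕ) = j + 1)
    (h : cX x ≤ cX (fun i => x i ∘ Equiv.swap j j')) : cc x j ≤ cc x j' := by
  have hb : ∀ i, rw (x i) < 4096 := fun i => rw_lt (hx i)
  have hb' : ∀ i, rw (x i ∘ Equiv.swap j j') < 4096 := fun i => rw_lt (fun k => hx i _)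
  have h4 := four (a0 := rw (x 0)) (b0 := rw (x 0 ∘ Equiv.swap j j')) (hb 1) (hb 2) (hb 3)
    (hb' 1) (hb' 2) (hb' 3) h
  have r0 := rw_swap (x 0) j j' hjj
  have r1 := rw_swap (x 1) j j' hjj
  have r2 := rw_swap (x 2) j j' hjj
  have r3 := rw_swap (x 3) j j' hjj
  have a0 := hx 0 j; have a1 := hx 1 j; have a2 := hx 2 j; have a3 := hx 3 j
  have b0 := hx 0 j'; have b1 := hx 1 j'; have b2 := hx 2 j'; have b3 := hx 3 j'
  unfold cc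
  rcases lt_trichotomy (x 0 j) (x 0 j') with e0 | e0 | e0
  · omega
  · rcases lt_trichotomy (x 1 j) (x 1 j') with e1 | e1 | e1
    · omega
    · rcases lt_trichotomy (x 2 j) (x 2 j') with e2 | e2 | e2
      · omega
      · rcases lt_trichotomy (x 3 j) (x 3 j') with e3 | e3 | e3
        · omega
        · omega
        · have := r0.1 e0; have := r1.1 e1; have := r2.1 e2; have := r3.2.1 e3; omega
      · have := r0.1 e0; have := r1.1 e1; have := r2.2.1 e2; omega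
    · have := r0.1 e0; have := r1.2.1 e1; omega
  · have := r0.2.1 e0; omega

lemma row_min {x : Fin 4 → Fin 6 → ℕ} (hx : ∀ i j, x i j < 4) (i i' : Fin 4)
    (hii : (i' : ℕ) = i + 1)
    (h : cX x ≤ cX (fun r => x (Equiv.swap i i' r))) : rw (x i) ≤ rw (x i') := by
  have hb : ∀ i, rw (x i) < 4096 := fun i => rw_lt (hx i)
  have hj : ∀ i i' : Fin 4, (i' : ℕ) = i + 1 → (i = 0 ∧ i' = 1) ∨ (i = 1 ∧ i' = 2) ∨
    (i = 2 ∧ i' = 3) := by decide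
  have b0 := hb 0; have b1 := hb 1; have b2 := hb 2; have b3 := hb 3
  rcases hj i i' hii with ⟨rfl, rfl⟩ | ⟨rfl, rfl⟩ | ⟨rfl, rfl⟩ <;>
  · simp only [cX] at h
    simp only [Equiv.swap_apply_def] at h
    simp (decide := true) only [if_true, if_false] at h
    omega

lemma lexCol_iff (D : ℕ → ℕ → ℕ → Bool) (j : ℕ) (hj : j < 5) : lexle D (lexCol j) = true ↔
    cN [D 0 1 (2 ^ j), D 1 1 (2 ^ j), D 0 2 (2 ^ j), D 1 2 (2 ^ j), D 0 4 (2 ^ j), D 1 4 (2 ^ j),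
      D 0 8 (2 ^ j), D 1 8 (2 ^ j)] ≤
    cN [D 0 1 (2 ^ (j + 1)), D 1 1 (2 ^ (j + 1)), D 0 2 (2 ^ (j + 1)), D 1 2 (2 ^ (j + 1)),
      D 0 4 (2 ^ (j + 1)), D 1 4 (2 ^ (j + 1)), D 0 8 (2 ^ (j + 1)), D 1 8 (2 ^ (j + 1))] := by
  rw [lexle_iff]
  interval_cases j <;> rfl

lemma lexRow_iff (D : ℕ → ℕ → ℕ → Bool) (i : ℕ) (hi : i < 3) : lexle D (lexRow i) = true ↔
    cN [D 0 (2 ^ i) 1, D 1 (2 ^ i) 1, D 0 (2 ^ i) 2, D 1 (2 ^ i) 2, D 0 (2 ^ i) 4, D 1 (2 ^ i) 4,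
      D 0 (2 ^ i) 8, D 1 (2 ^ i) 8, D 0 (2 ^ i) 16, D 1 (2 ^ i) 16, D 0 (2 ^ i) 32, D 1 (2 ^ i) 32] ≤
    cN [D 0 (2 ^ (i + 1)) 1, D 1 (2 ^ (i + 1)) 1, D 0 (2 ^ (i + 1)) 2, D 1 (2 ^ (i + 1)) 2,
      D 0 (2 ^ (i + 1)) 4, D 1 (2 ^ (i + 1)) 4, D 0 (2 ^ (i + 1)) 8, D 1 (2 ^ (i + 1)) 8,
      D 0 (2 ^ (i + 1)) 16, D 1 (2 ^ (i + 1)) 16, D 0 (2 ^ (i + 1)) 32, D 1 (2 ^ (i + 1)) 32] := by
  rw [lexle_iff]
  interval_cases i <;> rfl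

lemma fin6 (j : Fin 6) : j = 0 ∨ j = 1 ∨ j = 2 ∨ j = 3 ∨ j = 4 ∨ j = 5 := by
  revert j; decide

/-- a column as a number -/
lemma col_num (j : Fin 6) : cN [Dn M 0 1 (2 ^ (j : ℕ)), Dn M 1 1 (2 ^ (j : ℕ)), Dn M 0 2 (2 ^ (j : ℕ)),
      Dn M 1 2 (2 ^ (j : ℕ)), Dn M 0 4 (2 ^ (j : ℕ)), Dn M 1 4 (2 ^ (j : ℕ)),
      Dn M 0 8 (2 ^ (j : ℕ)), Dn M 1 8 (2 ^ (j : ℕ))] = cc (xv M) j := by
  have e0 : ∀ a k, Dn M 0 a k = bb M 0 a k := fun _ _ => rfl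
  have e1 : ∀ a k, Dn M 1 a k = bb M 1 a k := fun _ _ => rfl
  simp only [e0, e1, cc, xv, cN, List.length_cons, List.length_nil]
  have i0 : (2 : ℕ) ^ ((0 : Fin 4) : ℕ) = 1 := rfl
  have i1 : (2 : ℕ) ^ ((1 : Fin 4) : ℕ) = 2 := rfl
  have i2 : (2 : ℕ) ^ ((2 : Fin 4) : ℕ) = 4 := rfl
  have i3 : (2 : ℕ) ^ ((3 : Fin 4) : ℕ) = 8 := rfl
  rw [i0, i1, i2, i3]
  ring

/-- a row as a number -/
lemma row_num (i : Fin 4) : cN [Dn M 0 (2 ^ (i : ℕ)) 1, Dn M 1 (2 ^ (i : ℕ)) 1,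
      Dn M 0 (2 ^ (i : ℕ)) 2, Dn M 1 (2 ^ (i : ℕ)) 2, Dn M 0 (2 ^ (i : ℕ)) 4, Dn M 1 (2 ^ (i : ℕ)) 4,
      Dn M 0 (2 ^ (i : ℕ)) 8, Dn M 1 (2 ^ (i : ℕ)) 8, Dn M 0 (2 ^ (i : ℕ)) 16,
      Dn M 1 (2 ^ (i : ℕ)) 16, Dn M 0 (2 ^ (i : ℕ)) 32, Dn M 1 (2 ^ (i : ℕ)) 32] = rw (xv M i) := by
  have e0 : ∀ a k, Dn M 0 a k = bb M 0 a k := fun _ _ => rfl
  have e1 : ∀ a k, Dn M 1 a k = bb M 1 a k := fun _ _ => rfl
  simp only [e0, e1, rw, xv, cN, List.length_cons, List.length_nil]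
  have i0 : (2 : ℕ) ^ ((0 : Fin 6) : ℕ) = 1 := rfl
  have i1 : (2 : ℕ) ^ ((1 : Fin 6) : ℕ) = 2 := rfl
  have i2 : (2 : ℕ) ^ ((2 : Fin 6) : ℕ) = 4 := rfl
  have i3 : (2 : ℕ) ^ ((3 : Fin 6) : ℕ) = 8 := rfl
  have i4 : (2 : ℕ) ^ ((4 : Fin 6) : ℕ) = 16 := rfl
  have i5 : (2 : ℕ) ^ ((5 : Fin 6) : ℕ) = 32 := rfl
  rw [i0, i1, i2, i3, i4, i5]
  ring

end Pool.Agent.K7.H78.CDM
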