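import Pool.Agent.K7.H78.CDM.Facts6
import Pool.Agent.K7.H57.CDM.Cases

/-! The normal forms (statements). -/

namespace Pool.Agent.K7.H78.CDM

open Pool.Agent.K7.H57.CDM (Cs cls k1 k2 units lexs cases)

/-- `M` is in the normal form `c` -/
structure NF (c : Cs) (M : Fin 4 → Fin 6 → G) : Prop where
  z1 : Zb M 15 (k1 c) = true
  z2 : Zb M 15 (k2 c) = true
  d01 : ∀ i < 4, Dn M 0 (2 ^ i) (k1 c) = c.y.testBit i
  d11 : ∀ i < 4, Dn M 1 (2 ^ i) (k1 c) = false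
  d02 : ∀ i < 4, Dn M 0 (2 ^ i) (k2 c) = false
  d12 : ∀ i < 4, Dn M 1 (2 ^ i) (k2 c) = (c.ty && c.y.testBit i)
  c1 : ∀ j < 6, cls c j ≠ 0 → Dn M 1 15 (2 ^ j) = false
  c0 : ∀ j < 6, cls c j ≠ 0 → (c.ty = true ∨ cls c j ≠ 3) → Dn M 0 15 (2 ^ j) = false

/-- existence of a normal form (helper9) -/
def StNF : Prop := (∃ M : Fin 4 → Fin 6 → G, HS M) →
  ∃ c ∈ cases, ∃ M : Fin 4 → Fin 6 → G, HS M ∧ NF c M

/-- lexicographically minimal choice (helper78) -/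
def StLex : Prop := ∀ c ∈ cases, (∃ M : Fin 4 → Fin 6 → G, HS M ∧ NF c M) →
  ∃ M : Fin 4 → Fin 6 → G, HS M ∧
    Pool.Agent.K7.H57.CDM.Case (Dn M) (Zb M) (units c) (lexs c)

/-- nonexistence from the parts -/
theorem none_of (h1 : StNF) (h2 : StLex) (h3 : Pool.Agent.K7.H57.CDM.StSearch) :
    ¬ ∃ M : Fin 4 → Fin 6 → G, HS M := by
  intro h
  obtain ⟨c, hc, hM⟩ := h1 h
  obtain ⟨M, hM, hC⟩ := h2 c hc hM
  exact h3 c hc _ _ (facts hM) hC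

end Pool.Agent.K7.H78.CDM
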