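import Pool.Agent.K7.H78.CDM.Lex
import Pool.Agent.K7.H57.CDM.EncP

namespace Pool.Agent.K7.H78.CDM

open Finset
open Pool.Agent.K7.H57.CDM (Cs cls k1 k2 units lexs cases lexCol lexRow lexG lexle dval vD vZ ps ng lit lv val)

variable {M : Fin 4 → Fin 6 → G}

/-- the twelve bits of a row -/
def rowL (D0 D1 : ℕ → ℕ → Bool) (a : ℕ) : List Bool :=
  [D0 a 1, D1 a 1, D0 a 2, D1 a 2, D0 a 4, D1 a 4, D0 a 8, D1 a 8, D0 a 16, D1 a 16, D0 a 32, D1 a 32]

lemma lexG_iff (D : ℕ → ℕ → ℕ → Bool) : lexle D lexG = true ↔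
    cN (rowL (D 0) (D 1) 1 ++ (rowL (D 0) (D 1) 2 ++ (rowL (D 0) (D 1) 4 ++ rowL (D 0) (D 1) 8))) ≤
    cN (rowL (D 2) (D 1) 1 ++ (rowL (D 2) (D 1) 2 ++ (rowL (D 2) (D 1) 4 ++ rowL (D 2) (D 1) 8))) := by
  rw [lexle_iff]
  rfl

lemma cN_append (l m : List Bool) : cN (l ++ m) = cN l * 2 ^ m.length + cN m := by
  induction l with
  | nil => simp [cN]
  | cons b l ih =>
    simp only [List.cons_append, cN, ih, List.length_append, pow_add]
    ring

lemma rowL_num (M : Fin 4 → Fin 6 → G) (i : Fin 4) :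
    cN (rowL (Dn M 0) (Dn M 1) (2 ^ (i : ℕ))) = rw (xv M i) := row_num i

lemma full_num (M : Fin 4 → Fin 6 → G) :
    cN (rowL (Dn M 0) (Dn M 1) 1 ++ (rowL (Dn M 0) (Dn M 1) 2 ++
      (rowL (Dn M 0) (Dn M 1) 4 ++ rowL (Dn M 0) (Dn M 1) 8))) = cX (xv M) := by
  have r0 : cN (rowL (Dn M 0) (Dn M 1) 1) = rw (xv M 0) := rowL_num M 0
  have r1 : cN (rowL (Dn M 0) (Dn M 1) 2) = rw (xv M 1) := rowL_num M 1
  have r2 : cN (rowL (Dn M 0) (Dn M 1) 4) = rw (xv M 2) := rowL_num M 2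
  have r3 : cN (rowL (Dn M 0) (Dn M 1) 8) = rw (xv M 3) := rowL_num M 3
  have l1 : ∀ a, (rowL (Dn M 0) (Dn M 1) a).length = 12 := fun a => rfl
  rw [cN_append, cN_append, cN_append, r0, r1, r2, r3]
  simp only [List.length_append, l1]
  unfold cX
  omega

lemma G_min (h : cX (xv M) ≤ cX (xv (mapP sh M))) : lexle (Dn M) lexG = true := by
  rw [lexG_iff]
  have e2 : Dn M 2 = Dn (mapP sh M) 0 := by
    funext a k; exact ((Dn_sh (M := M) a k).1).symm
  have e1 : Dn M 1 = Dn (mapP sh M) 1 := by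
    funext a k; exact ((Dn_sh (M := M) a k).2).symm
  have A := full_num M
  have B := full_num (mapP sh M)
  rw [A, e2, e1, B]
  exact h

lemma cls_facts : ∀ c ∈ cases, (∀ j : Fin 5, cls c j = cls c (j + 1) →
    ((k1 c).testBit j = (k1 c).testBit (j + 1) ∧ (k2 c).testBit j = (k2 c).testBit (j + 1))) ∧
    k1 c < 64 ∧ k2 c < 64 := by
  decide +kernel

lemma lex_bound : ∀ c ∈ cases, ∀ L ∈ lexs c, L.length ≤ 64 ∧ ∀ p ∈ L, p.1 < 3072 ∧ p.2 < 3072 := by
  decide +kernel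

lemma swap_inv {α : Type*} {n : ℕ} (f : ℕ → α) (j j' : Fin n) (h : f j = f j') (i : Fin n) :
    f (Equiv.swap j j' i) = f i := by
  rw [Equiv.swap_apply_def]
  split_ifs with h1 h2
  · rw [h1, h]
  · rw [h2, h]
  · rfl

lemma units_NF {c : Cs} (hc : c ∈ cases) (h : NF c M) (L : List (List (ℕ × ℕ))) :
    ∀ l ∈ units c, lv (val (Dn M) (Zb M) L) l = true := by
  obtain ⟨-, b1, b2⟩ := cls_facts c hc
  have V : ∀ f i k, f < 3 → i < 4 → k < 64 → val (Dn M) (Zb M) L (vD f (2 ^ i) k) = Dn M f (2 ^ i) k :=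
    fun f i k hf hi hk => Pool.Agent.K7.H57.CDM.val_D hf (Pool.Agent.K7.H57.CDM.pow_lt16 hi) hk
  have V' : ∀ f j, f < 3 → j < 6 → val (Dn M) (Zb M) L (vD f 15 (2 ^ j)) = Dn M f 15 (2 ^ j) :=
    fun f j hf hj => Pool.Agent.K7.H57.CDM.val_D hf (by norm_num) (Pool.Agent.K7.H57.CDM.pow_lt64 hj)
  have litv : ∀ v b, lv (val (Dn M) (Zb M) L) (lit v b) = (val (Dn M) (Zb M) L v == b) := by
    intro v b
    unfold lit
    cases b
    · simp [Pool.Agent.K7.H57.CDM.lv_ng]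
    · simp [Pool.Agent.K7.H57.CDM.lv_ps]
  intro l hl
  simp only [units, List.mem_append, List.mem_flatten, List.mem_map, List.mem_range] at hl
  rcases hl with (hl | ⟨S, ⟨i, hi, rfl⟩, hl⟩) | ⟨S, ⟨j, hj, rfl⟩, hl⟩
  · simp only [List.mem_cons, List.not_mem_nil, or_false] at hl
    rcases hl with rfl | rfl
    · rw [Pool.Agent.K7.H57.CDM.lv_ps, Pool.Agent.K7.H57.CDM.val_Z (by norm_num) b1]; exact h.z1
    · rw [Pool.Agent.K7.H57.CDM.lv_ps, Pool.Agent.K7.H57.CDM.val_Z (by norm_num) b2]; exact h.z2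
  · simp only [List.mem_cons, List.not_mem_nil, or_false] at hl
    rcases hl with rfl | rfl | rfl | rfl
    · rw [litv, V 0 i _ (by norm_num) hi b1, h.d01 i hi]; simp
    · rw [Pool.Agent.K7.H57.CDM.lv_ng, V 1 i _ (by norm_num) hi b1, h.d11 i hi]; rfl
    · rw [Pool.Agent.K7.H57.CDM.lv_ng, V 0 i _ (by norm_num) hi b2, h.d02 i hi]; rfl
    · rw [litv, V 1 i _ (by norm_num) hi b2, h.d12 i hi]; simp
  · by_cases h0 : cls c j = 0
    · rw [if_pos h0] at hl; simp at hl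
    · rw [if_neg h0] at hl
      by_cases h1 : c.ty = true ∨ cls c j ≠ 3
      · rw [if_pos h1] at hl
        simp only [List.mem_cons, List.not_mem_nil, or_false] at hl
        rcases hl with rfl | rfl
        · rw [Pool.Agent.K7.H57.CDM.lv_ng, V' 0 j (by norm_num) hj, h.c0 j hj h0 h1]; rfl
        · rw [Pool.Agent.K7.H57.CDM.lv_ng, V' 1 j (by norm_num) hj, h.c1 j hj h0]; rfl
      · rw [if_neg h1] at hl
        simp only [List.mem_cons, List.not_mem_nil, or_false] at hl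
        rw [hl, Pool.Agent.K7.H57.CDM.lv_ng, V' 1 j (by norm_num) hj, h.c1 j hj h0]; rfl

theorem stLex : StLex := by
  intro c hc hex
  obtain ⟨M, hM, hN, hmin⟩ := exists_min hex
  refine ⟨M, hM, units_NF hc hN _, ?_, lex_bound c hc⟩
  intro L hL
  obtain ⟨cf, b1, b2⟩ := cls_facts c hc
  simp only [lexs, List.mem_append, List.mem_map, List.mem_filter, List.mem_range] at hL
  rcases hL with (⟨j, ⟨hj, hcl⟩, rfl⟩ | ⟨i, ⟨hi, hy⟩, rfl⟩) | hL
  · -- columns
    have hcl' : cls c j = cls c (j + 1) := by simpa using hcl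
    obtain ⟨t1, t2⟩ := cf ⟨j, hj⟩ hcl'
    have e := col_min (x := xv M) xv_lt (⟨j, by omega⟩ : Fin 6) ⟨j + 1, by omega⟩ rfl (by
      have := hmin (colP (Equiv.swap (⟨j, by omega⟩ : Fin 6) ⟨j + 1, by omega⟩) M) (HS_col hM _)
        (NF_col hN _ (fun i => swap_inv (fun n => (k1 c).testBit n) _ _ t1 i)
          (fun i => swap_inv (fun n => (k2 c).testBit n) _ _ t2 i)
          (fun i => swap_inv (fun n => cls c n) _ _ hcl' i))
      refine this.trans (le_of_eq ?_)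
      congr 1
      funext i j'
      rw [xv_col]; rfl)
    rw [lexCol_iff _ _ hj]
    have c1 := col_num (M := M) (⟨j, by omega⟩ : Fin 6)
    have c2 := col_num (M := M) (⟨j + 1, by omega⟩ : Fin 6)
    simp only at c1 c2
    rw [c1, c2]; exact e
  · -- rows
    have hy' : c.y.testBit i = c.y.testBit (i + 1) := by simpa using hy
    have e := row_min (x := xv M) xv_lt (⟨i, by omega⟩ : Fin 4) ⟨i + 1, by omega⟩ rfl (by
      have := hmin (rowP (Equiv.swap (⟨i, by omega⟩ : Fin 4) ⟨i + 1, by omega⟩) M) (HS_row hM _)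
        (NF_row hN _ (fun r => swap_inv (fun n => c.y.testBit n) _ _ hy' r))
      refine this.trans (le_of_eq ?_)
      congr 1
      funext r j'
      rw [xv_row])
    rw [lexRow_iff _ _ hi]
    have c1 := row_num (M := M) (⟨i, by omega⟩ : Fin 4)
    have c2 := row_num (M := M) (⟨i + 1, by omega⟩ : Fin 4)
    simp only at c1 c2
    rw [c1, c2]; exact e
  · by_cases ht : c.ty = true
    · rw [if_pos ht] at hL; simp at hL
    · rw [if_neg ht] at hL
      simp only [List.mem_cons, List.not_mem_nil, or_false] at hL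
      subst hL
      exact G_min (hmin _ (HS_map hM _) (NF_sh hN (by simpa using ht)))

end Pool.Agent.K7.H78.CDM
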